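import Mathlib

/-! Complete homogeneous symmetric polynomials and large Satake parameters. -/

set_option autoImplicit false

namespace Pool.Agent.H496.R8

open Finset

/-- The complete homogeneous symmetric polynomial of degree `k`: the coefficient of `X^k` in
`∏_i (∑_k α_i^k X^k) = ∏_i (1 - α_i X)⁻¹`. -/
noncomputable def hs {r : ℕ} (α : Fin r → ℂ) (k : ℕ) : ℂ :=
  PowerSeries.coeff k (∏ i, (PowerSeries.mk fun l => α i ^ l : PowerSeries ℂ))

/-- The same for a subset of the variables. -/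
noncomputable def hsS {r : ℕ} (α : Fin r → ℂ) (s : Finset (Fin r)) (k : ℕ) : ℂ :=
  PowerSeries.coeff k (∏ i ∈ s, (PowerSeries.mk fun l => α i ^ l : PowerSeries ℂ))

theorem geom_mul (x : ℂ) : (1 - PowerSeries.C x * PowerSeries.X) * (PowerSeries.mk fun l => x ^ l : PowerSeries ℂ) = 1 := by
  ext k
  rw [sub_mul, one_mul, mul_assoc, map_sub, PowerSeries.coeff_C_mul]
  cases k with
  | zero => simp
  | succ k =>
    rw [PowerSeries.coeff_succ_X_mul, PowerSeries.coeff_mk, PowerSeries.coeff_mk, PowerSeries.coeff_one, if_neg (by omega)]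
    ring

/-- Removing a variable. -/
theorem hsS_erase {r : ℕ} (α : Fin r → ℂ) {s : Finset (Fin r)} {i : Fin r} (hi : i ∉ s) (k : ℕ) :
    hsS α s (k + 1) = hsS α (insert i s) (k + 1) - α i * hsS α (insert i s) k := by
  unfold hsS
  set P := ∏ i ∈ s, (PowerSeries.mk fun l => α i ^ l : PowerSeries ℂ) with hP
  rw [prod_insert hi]
  set G := (PowerSeries.mk fun l => α i ^ l : PowerSeries ℂ) with hG
  have h1 : P = (1 - PowerSeries.C (α i) * PowerSeries.X) * (G * P) := by
    rw [← mul_assoc, hG, geom_mul, one_mul]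
  conv_lhs => rw [h1]
  rw [sub_mul, one_mul, mul_assoc, map_sub, PowerSeries.coeff_C_mul, PowerSeries.coeff_succ_X_mul]

theorem hsS_single {r : ℕ} (α : Fin r → ℂ) (i : Fin r) (k : ℕ) : hsS α {i} k = α i ^ k := by
  unfold hsS
  rw [prod_singleton, PowerSeries.coeff_mk]

/-- The lower bound: if `|α_i| = A` is maximal then `1 ≤ ∑_l C(n,l) |h_{m-l}| / A^{m-l}`. -/
theorem hs_lower {n : ℕ} (α : Fin (n + 1) → ℂ) {i : Fin (n + 1)} {A : ℝ} (hA : 0 < A) (hi : ‖α i‖ = A)
    (hmax : ∀ j, ‖α j‖ ≤ A) {m : ℕ} (hm : n ≤ m) :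
    1 ≤ ∑ l ∈ range (n + 1), (n.choose l : ℝ) * (‖hs α (m - l)‖ / A ^ (m - l)) := by
  -- adding the variables of `s` to the variable `i`
  have key : ∀ s : Finset (Fin (n + 1)), i ∉ s → ∀ k, #s ≤ k →
      1 ≤ ∑ l ∈ range (#s + 1), ((#s).choose l : ℝ) * (‖hsS α (insert i s) (k - l)‖ / A ^ (k - l)) := by
    intro s
    induction s using Finset.induction_on with
    | empty =>
      intro _ k _
      simp [hsS_single, norm_pow, hi]
      rw [div_self (pow_pos hA _).ne']
    | insert j s hj ih =>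
      intro his k hk
      have his' : i ∉ s := fun h => his (mem_insert_of_mem h)
      have hji : j ∉ insert i s := by
        intro h
        rcases mem_insert.1 h with h | h
        · exact his (h ▸ mem_insert_self _ _)
        · exact hj h
      rw [card_insert_of_notMem hj] at hk ⊢
      set c := #s with hc
      set b : ℕ → ℝ := fun l => ‖hsS α (insert i (insert j s)) l‖ / A ^ l with hb
      have hstep : ∀ l ≤ c, ‖hsS α (insert i s) (k - l)‖ / A ^ (k - l) ≤ b (k - l) + b (k - (l + 1)) := by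
        intro l hl
        obtain ⟨k', hk'⟩ : ∃ k', k - l = k' + 1 := ⟨k - l - 1, by omega⟩
        have hk'' : k - (l + 1) = k' := by omega
        rw [hk', hk'', hsS_erase α hji, hb]
        dsimp only
        rw [show insert j (insert i s) = insert i (insert j s) from Finset.insert_comm j i s]
        have h1 : ‖hsS α (insert i (insert j s)) (k' + 1) - α j * hsS α (insert i (insert j s)) k'‖ ≤
            ‖hsS α (insert i (insert j s)) (k' + 1)‖ + A * ‖hsS α (insert i (insert j s)) k'‖ := by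
          refine (norm_sub_le _ _).trans ?_
          rw [norm_mul]
          exact add_le_add le_rfl (mul_le_mul_of_nonneg_right (hmax j) (norm_nonneg _))
        calc _ ≤ (‖hsS α (insert i (insert j s)) (k' + 1)‖ + A * ‖hsS α (insert i (insert j s)) k'‖) / A ^ (k' + 1) :=
              div_le_div_of_nonneg_right h1 (pow_pos hA _).le
          _ = _ := by
            rw [add_div, pow_succ, mul_comm (A ^ k') A, mul_div_mul_left _ _ hA.ne']
      have h2 := (ih his' k (by omega)).trans (Finset.sum_le_sum fun l hl =>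
        mul_le_mul_of_nonneg_left (hstep l (Nat.lt_succ_iff.1 (mem_range.1 hl))) (Nat.cast_nonneg _))
      refine h2.trans (le_of_eq ?_)
      simp only [mul_add, Finset.sum_add_distrib]
      show _ = ∑ l ∈ range (c + 1 + 1), ((c + 1).choose l : ℝ) * b (k - l)
      rw [Finset.sum_range_succ' (fun l => ((c + 1).choose l : ℝ) * b (k - l)) (c + 1)]
      simp only [Nat.choose_succ_succ, Nat.cast_add, add_mul, Finset.sum_add_distrib]
      have h3 : ∑ l ∈ range (c + 1), (c.choose l : ℝ) * b (k - l) =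
          ∑ l ∈ range (c + 1), (c.choose (l + 1) : ℝ) * b (k - (l + 1)) + ((c + 1).choose 0 : ℝ) * b (k - 0) := by
        have h4 := Finset.sum_range_succ' (fun l => (c.choose l : ℝ) * b (k - l)) (c + 1)
        rw [Finset.sum_range_succ, Nat.choose_succ_self, Nat.cast_zero, zero_mul, add_zero] at h4
        rw [h4]
        simp
      rw [h3]
      ring
  have h5 := key (univ.erase i) (notMem_erase _ _) m (by
    rw [card_erase_of_mem (mem_univ _), card_univ, Fintype.card_fin]; omega)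
  rw [card_erase_of_mem (mem_univ _), card_univ, Fintype.card_fin, insert_erase (mem_univ _)] at h5
  exact h5

/-- The weighted number of the `j` with a parameter of absolute value at least `A`. -/
theorem density {n : ℕ} {J : Type*} [Fintype J] (α : J → Fin (n + 1) → ℂ) (w : J → ℝ) (hw : ∀ j, 0 ≤ w j) {m : ℕ}
    (hm : n ≤ m) {B : ℝ} (hB : ∀ l, m - n ≤ l → l ≤ m → ∑ j, ‖hs (α j) l‖ ^ 2 * w j ≤ B) {A : ℝ} (hA : 0 < A)
    (s : Finset J) (hs1 : ∀ j ∈ s, ∃ i, A ≤ ‖α j i‖) :
    ∑ j ∈ s, w j ≤ ((1 + A) ^ n / A ^ m) ^ 2 * B := by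
  set c : ℕ → ℝ := fun l => (n.choose l : ℝ) / A ^ (m - l) with hc
  have hc0 : ∀ l, 0 ≤ c l := fun l => div_nonneg (Nat.cast_nonneg _) (pow_pos hA _).le
  have hcs : ∑ l ∈ range (n + 1), c l = (1 + A) ^ n / A ^ m := by
    rw [add_pow, Finset.sum_div, ← Finset.sum_range_reflect]
    refine Finset.sum_congr rfl fun l hl => ?_
    have hl' : l ≤ n := Nat.lt_succ_iff.1 (mem_range.1 hl)
    have h1 : n + 1 - 1 - l = n - l := by omega
    rw [hc, h1]
    dsimp only
    rw [one_pow, one_mul, Nat.choose_symm hl', div_eq_div_iff (pow_pos hA _).ne' (pow_pos hA _).ne']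
    have h2 : A ^ m = A ^ (n - l) * A ^ (m - (n - l)) := by rw [← pow_add]; congr 1; omega
    rw [h2]
    ring
  have hj : ∀ j ∈ s, 1 ≤ ∑ l ∈ range (n + 1), c l * ‖hs (α j) (m - l)‖ := by
    intro j hj
    obtain ⟨i0, hi0⟩ := hs1 j hj
    obtain ⟨i, _, hi⟩ := Finset.exists_max_image (univ : Finset (Fin (n + 1))) (fun i => ‖α j i‖) ⟨i0, mem_univ _⟩
    have hAi : A ≤ ‖α j i‖ := hi0.trans (hi i0 (mem_univ _))
    refine (hs_lower (α j) (lt_of_lt_of_le hA hAi) rfl (fun i' => hi i' (mem_univ _)) hm).trans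
      (Finset.sum_le_sum fun l _ => ?_)
    rw [hc]
    dsimp only
    rw [div_mul_eq_mul_div, mul_div_assoc]
    refine mul_le_mul_of_nonneg_left ?_ (Nat.cast_nonneg _)
    exact div_le_div_of_nonneg_left (norm_nonneg _) (pow_pos hA _) (pow_le_pow_left₀ hA.le hAi _)
  have hB0 : 0 ≤ B := (Finset.sum_nonneg fun j _ => mul_nonneg (sq_nonneg _) (hw j)).trans (hB m (by omega) le_rfl)
  calc ∑ j ∈ s, w j ≤ ∑ j ∈ s, (∑ l ∈ range (n + 1), c l * ‖hs (α j) (m - l)‖) ^ 2 * w j :=
        Finset.sum_le_sum fun j hjs => le_mul_of_one_le_left (hw j) (one_le_pow₀ (hj j hjs))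
    _ ≤ ∑ j, (∑ l ∈ range (n + 1), c l * ‖hs (α j) (m - l)‖) ^ 2 * w j :=
        Finset.sum_le_univ_sum_of_nonneg fun j => mul_nonneg (sq_nonneg _) (hw j)
    _ ≤ ∑ j, ((∑ l ∈ range (n + 1), c l) * ∑ l ∈ range (n + 1), c l * ‖hs (α j) (m - l)‖ ^ 2) * w j := by
        refine Finset.sum_le_sum fun j _ => mul_le_mul_of_nonneg_right ?_ (hw j)
        have h1 := Finset.sum_mul_sq_le_sq_mul_sq (range (n + 1)) (fun l => Real.sqrt (c l))
          (fun l => Real.sqrt (c l) * ‖hs (α j) (m - l)‖)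
        have h2 : ∀ l, Real.sqrt (c l) * (Real.sqrt (c l) * ‖hs (α j) (m - l)‖) = c l * ‖hs (α j) (m - l)‖ := by
          intro l; rw [← mul_assoc, Real.mul_self_sqrt (hc0 l)]
        have h3 : ∀ l, Real.sqrt (c l) ^ 2 = c l := fun l => Real.sq_sqrt (hc0 l)
        simp only [h2, h3, mul_pow] at h1
        exact h1
    _ = (∑ l ∈ range (n + 1), c l) * ∑ l ∈ range (n + 1), c l * ∑ j, ‖hs (α j) (m - l)‖ ^ 2 * w j := by
        have h1 : ∀ j, ((∑ l ∈ range (n + 1), c l) * ∑ l ∈ range (n + 1), c l * ‖hs (α j) (m - l)‖ ^ 2) * w j =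
            (∑ l ∈ range (n + 1), c l) * ∑ l ∈ range (n + 1), c l * (‖hs (α j) (m - l)‖ ^ 2 * w j) := by
          intro j
          have h2 : (∑ l ∈ range (n + 1), c l * ‖hs (α j) (m - l)‖ ^ 2) * w j =
              ∑ l ∈ range (n + 1), c l * (‖hs (α j) (m - l)‖ ^ 2 * w j) := by
            rw [Finset.sum_mul]
            refine Finset.sum_congr rfl fun l _ => ?_
            ring
          rw [mul_assoc, h2]
        simp_rw [h1]
        rw [← Finset.mul_sum, Finset.sum_comm]
        congr 1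
        refine Finset.sum_congr rfl fun l _ => ?_
        rw [Finset.mul_sum]
    _ ≤ (∑ l ∈ range (n + 1), c l) * ∑ l ∈ range (n + 1), c l * B := by
        refine mul_le_mul_of_nonneg_left (Finset.sum_le_sum fun l hl => ?_) (Finset.sum_nonneg fun l _ => hc0 l)
        have hl' := Nat.lt_succ_iff.1 (mem_range.1 hl)
        exact mul_le_mul_of_nonneg_left (hB _ (by omega) (by omega)) (hc0 l)
    _ = ((1 + A) ^ n / A ^ m) ^ 2 * B := by
        rw [← Finset.sum_mul, hcs]
        ring

end Pool.Agent.H496.R8
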