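import Mathlib
import Pool.Agent.H496.E1.Pet

/-! A Bessel inequality for Poincaré series with a multiplier. -/

set_option autoImplicit false
set_option linter.unusedSectionVars false
set_option linter.style.haveILetI false

namespace Pool.Agent.H496.R8

open MeasureTheory Set
open scoped ComplexConjugate ENNReal

variable {H : Type*} [Group H] [MeasurableSpace H] [MeasurableMul H] {Γ : Subgroup H} [Countable Γ]
  {μ : Measure H} [SFinite μ] [μ.IsMulLeftInvariant] {F : Set H}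

/-- The Poincaré series. -/
noncomputable def PS (ϑ : Γ →* Circle) (φ : H → ℂ) (h : H) : ℂ := ∑' γ : Γ, (ϑ γ : ℂ) * φ ((γ : H) * h)

theorem PS_fin {φ : H → ℂ} {T : Finset Γ} (hT : ∀ (γ : Γ) x, φ x ≠ 0 → φ ((γ : H) * x) ≠ 0 → γ ∈ T) (h : H) :
    {γ : Γ | φ ((γ : H) * h) ≠ 0}.Finite := by
  classical
  by_cases hne : ∃ γ₀ : Γ, φ ((γ₀ : H) * h) ≠ 0
  · obtain ⟨γ₀, h0⟩ := hne
    refine (T.image fun γ => γ * γ₀).finite_toSet.subset fun γ hγ => ?_
    rw [Finset.mem_coe, Finset.mem_image]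
    refine ⟨γ * γ₀⁻¹, hT _ _ h0 ?_, inv_mul_cancel_right _ _⟩
    rw [← mul_assoc, ← Subgroup.coe_mul, inv_mul_cancel_right]
    exact hγ
  · push Not at hne
    have : {γ : Γ | φ ((γ : H) * h) ≠ 0} = ∅ := by
      ext γ
      simp [hne γ]
    rw [this]
    exact Set.finite_empty

theorem PS_summable {ϑ : Γ →* Circle} {φ : H → ℂ} {T : Finset Γ}
    (hT : ∀ (γ : Γ) x, φ x ≠ 0 → φ ((γ : H) * x) ≠ 0 → γ ∈ T) (h : H) :
    Summable fun γ : Γ => (ϑ γ : ℂ) * φ ((γ : H) * h) := by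
  refine summable_of_hasFiniteSupport ((PS_fin hT h).subset fun γ hγ => ?_)
  intro h0
  exact hγ (by simp [h0])

theorem PS_mul (ϑ : Γ →* Circle) (φ : H → ℂ) (δ : Γ) (h : H) :
    PS ϑ φ ((δ : H) * h) = conj (ϑ δ : ℂ) * PS ϑ φ h := by
  unfold PS
  rw [← tsum_mul_left, ← (Equiv.mulRight δ).tsum_eq fun γ : Γ => conj (ϑ δ : ℂ) * ((ϑ γ : ℂ) * φ ((γ : H) * h))]
  refine tsum_congr fun γ => ?_
  rw [Equiv.coe_mulRight, map_mul, Circle.coe_mul, Subgroup.coe_mul, mul_assoc (γ : H)]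
  have : conj (ϑ δ : ℂ) * (ϑ δ : ℂ) = 1 := by
    rw [← Circle.coe_inv_eq_conj, ← Circle.coe_mul, inv_mul_cancel, Circle.coe_one]
  calc (ϑ γ : ℂ) * φ ((γ : H) * ((δ : H) * h)) = (conj (ϑ δ : ℂ) * (ϑ δ : ℂ)) * ((ϑ γ : ℂ) * φ ((γ : H) * ((δ : H) * h))) := by
        rw [this, one_mul]
    _ = _ := by ring

theorem poincare_bessel (hF : IsFundamentalDomain Γ F μ) {J : Type*} [Fintype J] [DecidableEq J] {f : J → H → ℂ}
    (hfm : ∀ j, Measurable (f j)) (ϑ : Γ →* Circle) (hf : ∀ j (γ : Γ) h, f j (γ * h) = (ϑ γ : ℂ) * f j h)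
    (ho : ∀ i j, ∫ h in F, f i h * conj (f j h) ∂μ = if i = j then 1 else 0)
    {φ : H → ℂ} (hφ : Measurable φ) {T : Finset Γ}
    (hT : ∀ (γ : Γ) x, φ x ≠ 0 → φ ((γ : H) * x) ≠ 0 → γ ∈ T) (hφ2 : MemLp φ 2 μ)
    (hφf : ∀ j, Integrable (fun x => φ x * f j x) μ) :
    ∑ j, ‖∫ x, φ x * f j x ∂μ‖ ^ 2 ≤ (∑ γ ∈ T, (ϑ γ : ℂ) * ∫ x, conj (φ x) * φ ((γ : H) * x) ∂μ).re := by
  set P := PS ϑ φ with hP
  have hPm : Measurable P := Measurable.tsum fun γ => measurable_const.mul (hφ.comp (measurable_const_mul (γ : H)))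
  have hconj : ∀ γ : Γ, conj (ϑ γ : ℂ) * (ϑ γ : ℂ) = 1 := fun γ => by
    rw [← Circle.coe_inv_eq_conj, ← Circle.coe_mul, inv_mul_cancel, Circle.coe_one]
  -- the unfolded function
  set q : H → ℂ := fun x => conj (φ x) * P x with hq
  have hPT : ∀ x, φ x ≠ 0 → P x = ∑ γ ∈ T, (ϑ γ : ℂ) * φ ((γ : H) * x) := by
    intro x hx
    refine tsum_eq_sum fun γ hγ => ?_
    by_contra h0
    exact hγ (hT γ x hx fun h1 => h0 (by rw [h1, mul_zero]))
  have hqT : ∀ x, q x = ∑ γ ∈ T, (ϑ γ : ℂ) * (conj (φ x) * φ ((γ : H) * x)) := by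
    intro x
    by_cases hx : φ x = 0
    · rw [hq]
      simp [hx]
    · show conj (φ x) * P x = _
      rw [hPT x hx, Finset.mul_sum]
      exact Finset.sum_congr rfl fun γ _ => by ring
  have hmem : ∀ γ : Γ, MemLp (fun x => φ ((γ : H) * x)) 2 μ := fun γ =>
    hφ2.comp_measurePreserving (measurePreserving_mul_left μ (γ : H))
  have hint : ∀ γ : Γ, Integrable (fun x => conj (φ x) * φ ((γ : H) * x)) μ := fun γ =>
    hφ2.star.integrable_mul (hmem γ)
  have hqm : Measurable q := (Complex.continuous_conj.measurable.comp hφ).mul hPm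
  have hqi : Integrable q μ := by
    have : q = fun x => ∑ γ ∈ T, (ϑ γ : ℂ) * (conj (φ x) * φ ((γ : H) * x)) := funext hqT
    rw [this]
    exact integrable_finsetSum _ fun γ _ => (hint γ).const_mul _
  have hqint : ∫ x, q x ∂μ = ∑ γ ∈ T, (ϑ γ : ℂ) * ∫ x, conj (φ x) * φ ((γ : H) * x) ∂μ := by
    simp_rw [hqT]
    rw [integral_finsetSum _ fun γ _ => (hint γ).const_mul _]
    exact Finset.sum_congr rfl fun γ _ => integral_const_mul _ _
  -- unfolding of `q`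
  have hqF : ∀ h, ∑' γ : Γ, q ((γ : H) * h) = ((‖P h‖ ^ 2 : ℝ) : ℂ) := by
    intro h
    have e1 : ∀ γ : Γ, q ((γ : H) * h) = conj ((ϑ γ : ℂ) * φ ((γ : H) * h)) * P h := by
      intro γ
      show conj (φ ((γ : H) * h)) * P ((γ : H) * h) = _
      rw [hP, PS_mul, map_mul]
      ring
    simp_rw [e1]
    rw [tsum_mul_right, ← Complex.conj_tsum]
    show conj (P h) * P h = _
    rw [mul_comm, Complex.mul_conj, Complex.normSq_eq_norm_sq]
  have hqU : ∫ x, q x ∂μ = ((∫ h in F, ‖P h‖ ^ 2 ∂μ : ℝ) : ℂ) := by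
    rw [unfold_eq hF hqm hqi, ← integral_complex_ofReal]
    exact integral_congr_ae (Filter.Eventually.of_forall hqF)
  -- `P` is square integrable on `F`
  have hP2 : Integrable (fun h => ‖P h‖ ^ 2) (μ.restrict F) := by
    refine ⟨((hPm.norm).pow_const 2).aestronglyMeasurable, ?_⟩
    rw [hasFiniteIntegral_iff_enorm]
    have h2 := hF.lintegral_eq_tsum'' (fun h => ‖q h‖ₑ)
    refine lt_of_le_of_lt ?_ hqi.2
    rw [h2, ← lintegral_tsum (fun γ : Γ => by
      exact ((hqm.comp (measurable_const_mul (γ : H))).enorm).aemeasurable)]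
    refine lintegral_mono fun h => ?_
    have h3 : ‖(((‖P h‖ ^ 2 : ℝ)) : ℂ)‖ₑ ≤ ∑' γ : Γ, ‖q ((γ : H) * h)‖ₑ := by
      rw [← hqF h]
      exact enorm_tsum_le_tsum_enorm
    refine le_trans (le_of_eq ?_) h3
    rw [← ofReal_norm, ← ofReal_norm, Complex.norm_real]
  -- the coefficients
  have hcoef : ∀ j, ∫ x, φ x * f j x ∂μ = ∫ h in F, f j h * P h ∂μ := by
    intro j
    have hm1 : Measurable fun x => φ x * f j x := hφ.mul (hfm j)
    rw [unfold_eq hF hm1 (hφf j)]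
    refine integral_congr_ae (Filter.Eventually.of_forall fun h => ?_)
    dsimp only
    rw [hP, PS, ← tsum_mul_left]
    refine tsum_congr fun γ => ?_
    rw [hf]
    ring
  have hbes := (bessel' (μ.restrict F) f hfm ho (μ.restrict F) id measurable_id (C := 1) zero_le_one
    (fun a => by simp) P hPm hP2).2
  simp_rw [hcoef]
  refine hbes.trans ?_
  rw [one_mul, ← hqint, hqU, Complex.ofReal_re]

end Pool.Agent.H496.R8
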