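import Mathlib

/-! Upper unitriangular matrices, added column by column. -/

set_option autoImplicit false
set_option linter.unusedSectionVars false

namespace Pool.Agent.H496.R8

open MeasureTheory Matrix Set
open scoped ComplexConjugate

section alg
variable {R : Type*} [CommRing R] {r : ℕ}

/-- The matrix `(A b; 0 1)`. -/
def ext (A : Matrix (Fin r) (Fin r) R) (b : Fin r → R) : Matrix (Fin (r + 1)) (Fin (r + 1)) R :=
  Matrix.of (Fin.snoc (α := fun _ => Fin (r + 1) → R) (fun i => Fin.snoc (α := fun _ => R) (A i) (b i))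
    (Fin.snoc (α := fun _ => R) 0 1))

@[simp] theorem ext_cc (A : Matrix (Fin r) (Fin r) R) (b : Fin r → R) (i j : Fin r) :
    ext A b i.castSucc j.castSucc = A i j := by simp [ext]

@[simp] theorem ext_cl (A : Matrix (Fin r) (Fin r) R) (b : Fin r → R) (i : Fin r) :
    ext A b i.castSucc (Fin.last r) = b i := by simp [ext]

@[simp] theorem ext_lc (A : Matrix (Fin r) (Fin r) R) (b : Fin r → R) (j : Fin r) :
    ext A b (Fin.last r) j.castSucc = 0 := by simp [ext]

@[simp] theorem ext_ll (A : Matrix (Fin r) (Fin r) R) (b : Fin r → R) :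
    ext A b (Fin.last r) (Fin.last r) = 1 := by simp [ext]

/-- The upper left block. -/
def top (M : Matrix (Fin (r + 1)) (Fin (r + 1)) R) : Matrix (Fin r) (Fin r) R :=
  Matrix.of fun i j => M i.castSucc j.castSucc

/-- The last column without the last entry. -/
def col (M : Matrix (Fin (r + 1)) (Fin (r + 1)) R) : Fin r → R := fun i => M i.castSucc (Fin.last r)

@[simp] theorem top_ext (A : Matrix (Fin r) (Fin r) R) (b : Fin r → R) : top (ext A b) = A := by
  ext i j; simp [top]

@[simp] theorem col_ext (A : Matrix (Fin r) (Fin r) R) (b : Fin r → R) : col (ext A b) = b := by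
  funext i; simp [col]

theorem ext_top_col {M : Matrix (Fin (r + 1)) (Fin (r + 1)) R} (h : ∀ j : Fin r, M (Fin.last r) j.castSucc = 0)
    (h1 : M (Fin.last r) (Fin.last r) = 1) : ext (top M) (col M) = M := by
  ext i j
  refine Fin.lastCases ?_ (fun i => ?_) i <;> refine Fin.lastCases ?_ (fun j => ?_) j
  · rw [ext_ll, h1]
  · rw [ext_lc, h]
  · rw [ext_cl]; rfl
  · rw [ext_cc]; rfl

theorem ext_inj {A A' : Matrix (Fin r) (Fin r) R} {b b' : Fin r → R} (h : ext A b = ext A' b') : A = A' ∧ b = b' := by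
  have h1 := congrArg top h
  have h2 := congrArg col h
  rw [top_ext, top_ext] at h1
  rw [col_ext, col_ext] at h2
  exact ⟨h1, h2⟩

theorem ext_mul (A A' : Matrix (Fin r) (Fin r) R) (b b' : Fin r → R) :
    ext A b * ext A' b' = ext (A * A') (A *ᵥ b' + b) := by
  ext i j
  rw [Matrix.mul_apply, Fin.sum_univ_castSucc]
  refine Fin.lastCases ?_ (fun i => ?_) i <;> refine Fin.lastCases ?_ (fun j => ?_) j
  · simp
  · simp
  · simp only [ext_cc, ext_cl, ext_ll, mul_one, Pi.add_apply]
    rfl
  · simp only [ext_cc, ext_cl, ext_lc, mul_zero, add_zero]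
    rfl

theorem ext_one : ext (1 : Matrix (Fin r) (Fin r) R) 0 = 1 := by
  ext i j
  refine Fin.lastCases ?_ (fun i => ?_) i <;> refine Fin.lastCases ?_ (fun j => ?_) j
  · simp
  · rw [ext_lc, Matrix.one_apply_ne (Fin.castSucc_lt_last j).ne']
  · rw [ext_cl, Matrix.one_apply_ne (Fin.castSucc_lt_last i).ne]; rfl
  · rw [ext_cc, Matrix.one_apply, Matrix.one_apply]
    simp

theorem det_ext (A : Matrix (Fin r) (Fin r) R) (b : Fin r → R) : (ext A b).det = A.det := by
  rw [Matrix.det_succ_row _ (Fin.last r), Fin.sum_univ_castSucc]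
  have h1 : (ext A b).submatrix (Fin.last r).succAbove (Fin.last r).succAbove = A := by
    ext i j
    simp [Fin.succAbove_last]
  rw [h1]
  simp [← two_mul]

/-- Uniqueness of the inverse. -/
theorem adj_eq_of_mul {n : ℕ} {M X : Matrix (Fin n) (Fin n) R} (hM : M.det = 1) (h : M * X = 1) :
    M.adjugate = X := by
  calc M.adjugate = M.adjugate * (M * X) := by rw [h, mul_one]
    _ = (M.adjugate * M) * X := by rw [mul_assoc]
    _ = X := by rw [adjugate_mul, hM, one_smul, one_mul]

theorem adj_mul_self {n : ℕ} {M : Matrix (Fin n) (Fin n) R} (hM : M.det = 1) : M.adjugate * M = 1 := by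
  rw [adjugate_mul, hM, one_smul]

theorem mul_adj_self {n : ℕ} {M : Matrix (Fin n) (Fin n) R} (hM : M.det = 1) : M * M.adjugate = 1 := by
  rw [mul_adjugate, hM, one_smul]

theorem adj_ext {A : Matrix (Fin r) (Fin r) R} (hA : A.det = 1) (b : Fin r → R) :
    (ext A b).adjugate = ext A.adjugate (-(A.adjugate *ᵥ b)) := by
  apply adj_eq_of_mul
  · rw [det_ext, hA]
  · rw [ext_mul, mul_adj_self hA, mulVec_neg, mulVec_mulVec, mul_adj_self hA, one_mulVec, neg_add_cancel, ext_one]

/-- Upper unitriangular matrices. -/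
def IsU (u : Matrix (Fin r) (Fin r) R) : Prop := (∀ i j, j < i → u i j = 0) ∧ ∀ i, u i i = 1

theorem isU_one : IsU (1 : Matrix (Fin r) (Fin r) R) :=
  ⟨fun _ _ h => Matrix.one_apply_ne h.ne', fun _ => Matrix.one_apply_eq _⟩

theorem isU_ext {u : Matrix (Fin r) (Fin r) R} (hu : IsU u) (b : Fin r → R) : IsU (ext u b) := by
  refine ⟨fun i j => ?_, fun i => ?_⟩
  · refine Fin.lastCases ?_ (fun i => ?_) i <;> refine Fin.lastCases ?_ (fun j => ?_) j
    · intro h; exact absurd h (lt_irrefl _)
    · intro _; exact ext_lc _ _ _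
    · intro h; exact absurd h (not_lt.2 (Fin.le_last _))
    · intro h
      rw [ext_cc]
      exact hu.1 i j (by simpa using h)
  · refine Fin.lastCases ?_ (fun i => ?_) i
    · exact ext_ll _ _
    · rw [ext_cc]; exact hu.2 i

theorem isU_top {u : Matrix (Fin (r + 1)) (Fin (r + 1)) R} (hu : IsU u) : IsU (top u) :=
  ⟨fun i j h => hu.1 _ _ (by simpa using h), fun i => hu.2 _⟩

theorem isU_eq {u : Matrix (Fin (r + 1)) (Fin (r + 1)) R} (hu : IsU u) : ext (top u) (col u) = u :=
  ext_top_col (fun j => hu.1 _ _ (Fin.castSucc_lt_last j)) (hu.2 _)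

theorem isU_det {u : Matrix (Fin r) (Fin r) R} (hu : IsU u) : u.det = 1 := by
  rw [Matrix.det_of_isUpperTriangular (fun i j h => hu.1 i j h)]
  exact Finset.prod_eq_one fun i _ => hu.2 i

theorem isU_last_row {u : Matrix (Fin (r + 1)) (Fin (r + 1)) R} (hu : IsU u) (M : Matrix (Fin (r + 1)) (Fin (r + 1)) R)
    (j : Fin (r + 1)) : (u * M) (Fin.last r) j = M (Fin.last r) j := by
  rw [Matrix.mul_apply, Finset.sum_eq_single (Fin.last r)]
  · rw [hu.2, one_mul]
  · intro i _ hi
    rw [hu.1 _ _ (lt_of_le_of_ne (Fin.le_last i) hi), zero_mul]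
  · intro h; exact absurd (Finset.mem_univ _) h

theorem isU_adj_last_row {u : Matrix (Fin (r + 1)) (Fin (r + 1)) R} (hu : IsU u)
    (M : Matrix (Fin (r + 1)) (Fin (r + 1)) R) (j : Fin (r + 1)) :
    (u.adjugate * M) (Fin.last r) j = M (Fin.last r) j := by
  have h1 := isU_last_row hu (u.adjugate * M) j
  rw [← mul_assoc, mul_adj_self (isU_det hu), one_mul] at h1
  exact h1.symm

theorem isU_mulVec_last {u : Matrix (Fin (r + 1)) (Fin (r + 1)) R} (hu : IsU u) (s : Fin (r + 1) → R) :
    (u *ᵥ s) (Fin.last r) = s (Fin.last r) := by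
  rw [Matrix.mulVec, dotProduct, Finset.sum_eq_single (Fin.last r)]
  · rw [hu.2, one_mul]
  · intro i _ hi
    rw [hu.1 _ _ (lt_of_le_of_ne (Fin.le_last i) hi), zero_mul]
  · intro h; exact absurd (Finset.mem_univ _) h

/-- The conjugation formula. -/
theorem conj_ext {u u' A : Matrix (Fin r) (Fin r) R} (hu' : u'.det = 1) (b b' β : Fin r → R) :
    (ext u' b').adjugate * ext A β * ext u b =
      ext (u'.adjugate * A * u) (u'.adjugate *ᵥ (A *ᵥ b + β - b')) := by
  rw [adj_ext hu', ext_mul, ext_mul]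
  congr 1
  rw [mulVec_sub, mulVec_add, mulVec_mulVec]
  abel

end alg

end Pool.Agent.H496.R8
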