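import Mathlib
import Pool.Agent.H496.R8.Uni

/-! The measure on unitriangular matrices. -/

set_option autoImplicit false
set_option linter.unusedSectionVars false

namespace Pool.Agent.H496.R8

open MeasureTheory Matrix Set
open scoped ComplexConjugate ENNReal

instance instMeasurableSpaceMatrix {m n R : Type*} [MeasurableSpace R] : MeasurableSpace (Matrix m n R) :=
  inferInstanceAs (MeasurableSpace (m → n → R))

instance instBorelSpaceMatrix {m n R : Type*} [Countable m] [Countable n] [TopologicalSpace R] [MeasurableSpace R]
    [SecondCountableTopology R] [BorelSpace R] : BorelSpace (Matrix m n R) :=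
  inferInstanceAs (BorelSpace (m → n → R))

instance instSecondCountableMatrix {m n R : Type*} [Countable m] [Countable n] [TopologicalSpace R]
    [SecondCountableTopology R] : SecondCountableTopology (Matrix m n R) :=
  inferInstanceAs (SecondCountableTopology (m → n → R))

section
variable {R : Type*} [CommRing R] [TopologicalSpace R] [IsTopologicalRing R] {r : ℕ}

theorem continuous_ext : Continuous fun p : Matrix (Fin r) (Fin r) R × (Fin r → R) => ext p.1 p.2 := by
  refine continuous_matrix fun i j => ?_
  refine Fin.lastCases ?_ (fun i => ?_) i <;> refine Fin.lastCases ?_ (fun j => ?_) j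
  · simp only [ext_ll]; exact continuous_const
  · simp only [ext_lc]; exact continuous_const
  · simp only [ext_cl]; exact (continuous_apply i).comp continuous_snd
  · simp only [ext_cc]; exact (continuous_fst).matrix_elem i j

theorem continuous_top : Continuous (top : Matrix (Fin (r + 1)) (Fin (r + 1)) R → Matrix (Fin r) (Fin r) R) :=
  continuous_matrix fun i j => continuous_id.matrix_elem i.castSucc j.castSucc

theorem continuous_col : Continuous (col : Matrix (Fin (r + 1)) (Fin (r + 1)) R → (Fin r → R)) :=
  continuous_pi fun i => continuous_id.matrix_elem i.castSucc (Fin.last r)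

variable [MeasurableSpace R] [BorelSpace R] [SecondCountableTopology R]

theorem measurable_ext : Measurable fun p : Matrix (Fin r) (Fin r) R × (Fin r → R) => ext p.1 p.2 :=
  continuous_ext.measurable

/-- The measure on upper unitriangular matrices `(u b; 0 1)` given by the measure `ν` in each entry above the
diagonal. -/
noncomputable def uMeas (ν : Measure R) : (r : ℕ) → Measure (Matrix (Fin r) (Fin r) R)
  | 0 => Measure.dirac 1
  | r + 1 => ((uMeas ν r).prod (Measure.pi fun _ : Fin r => ν)).map fun p => ext p.1 p.2

instance uMeas_sFinite (ν : Measure R) [SigmaFinite ν] (r : ℕ) : SFinite (uMeas ν r) := by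
  induction r with
  | zero => unfold uMeas; infer_instance
  | succ r ih => unfold uMeas; infer_instance

instance uMeas_finite (ν : Measure R) [IsFiniteMeasure ν] (r : ℕ) : IsFiniteMeasure (uMeas ν r) := by
  induction r with
  | zero => unfold uMeas; infer_instance
  | succ r ih => unfold uMeas; infer_instance

theorem integral_succ (ν : Measure R) [SigmaFinite ν] {f : Matrix (Fin (r + 1)) (Fin (r + 1)) R → ℂ}
    (hf : Measurable f) (hi : Integrable f (uMeas ν (r + 1))) :
    ∫ u, f u ∂(uMeas ν (r + 1)) = ∫ u, ∫ b, f (ext u b) ∂(Measure.pi fun _ : Fin r => ν) ∂(uMeas ν r) := by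
  have h1 : Integrable (fun p : Matrix (Fin r) (Fin r) R × (Fin r → R) => f (ext p.1 p.2))
      ((uMeas ν r).prod (Measure.pi fun _ : Fin r => ν)) := by
    unfold uMeas at hi
    exact (integrable_map_measure hf.aestronglyMeasurable measurable_ext.aemeasurable).1 hi
  show ∫ u, f u ∂(((uMeas ν r).prod (Measure.pi fun _ : Fin r => ν)).map fun p => ext p.1 p.2) = _
  rw [integral_map measurable_ext.aemeasurable hf.aestronglyMeasurable, integral_prod _ h1]

theorem integrable_bdd {α : Type*} [MeasurableSpace α] {μ : Measure α} [IsFiniteMeasure μ] {f : α → ℂ}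
    (hf : Measurable f) {C : ℝ} (hC : ∀ x, ‖f x‖ ≤ C) : Integrable f μ :=
  Integrable.of_bound hf.aestronglyMeasurable C (Filter.Eventually.of_forall hC)

theorem meas_int {α β : Type*} [MeasurableSpace α] [MeasurableSpace β] {μ : Measure β} [SFinite μ] {f : α × β → ℂ}
    (hf : Measurable f) : Measurable fun x => ∫ y, f (x, y) ∂μ :=
  (hf.stronglyMeasurable.integral_prod_right').measurable

variable [T2Space R]

theorem measurableSet_isU : MeasurableSet {u : Matrix (Fin r) (Fin r) R | IsU u} := by
  have h1 : IsClosed {u : Matrix (Fin r) (Fin r) R | IsU u} := by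
    have : {u : Matrix (Fin r) (Fin r) R | IsU u} =
        (⋂ i : Fin r, ⋂ j : Fin r, ⋂ (_ : j < i), {u | u i j = 0}) ∩ ⋂ i : Fin r, {u | u i i = 1} := by
      ext u
      simp only [IsU, mem_setOf_eq, mem_inter_iff, mem_iInter]
    rw [this]
    refine IsClosed.inter ?_ ?_
    · exact isClosed_iInter fun i => isClosed_iInter fun j => isClosed_iInter fun _ =>
        isClosed_eq (continuous_id.matrix_elem i j) continuous_const
    · exact isClosed_iInter fun i => isClosed_eq (continuous_id.matrix_elem i i) continuous_const
  exact h1.measurableSet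

/-- The compact sets of unitriangular matrices with entries in `C`. -/
def cpt (C : Set R) : (r : ℕ) → Set (Matrix (Fin r) (Fin r) R)
  | 0 => {1}
  | r + 1 => (fun p : Matrix (Fin r) (Fin r) R × (Fin r → R) => ext p.1 p.2) '' (cpt C r ×ˢ (univ.pi fun _ => C))

theorem isCompact_cpt {C : Set R} (hC : IsCompact C) (r : ℕ) : IsCompact (cpt C r) := by
  induction r with
  | zero => exact isCompact_singleton
  | succ r ih => exact (ih.prod (isCompact_univ_pi fun _ => hC)).image continuous_ext

theorem ae_cpt {ν : Measure R} [SigmaFinite ν] {C : Set R} (hC : IsCompact C) (hν : ∀ᵐ x ∂ν, x ∈ C) (r : ℕ) :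
    ∀ᵐ u ∂(uMeas ν r), u ∈ cpt C r ∧ IsU u := by
  induction r with
  | zero =>
    unfold uMeas
    rw [ae_dirac_iff]
    · exact ⟨rfl, isU_one⟩
    · exact ((isCompact_cpt hC 0).isClosed.measurableSet).inter measurableSet_isU
  | succ r ih =>
    unfold uMeas
    rw [ae_map_iff measurable_ext.aemeasurable]
    · have h1 : ∀ᵐ b ∂(Measure.pi fun _ : Fin r => ν), b ∈ univ.pi fun _ : Fin r => C := by
        have : ∀ i : Fin r, ∀ᵐ b ∂(Measure.pi fun _ : Fin r => ν), b i ∈ C := fun i =>
          (Measure.quasiMeasurePreserving_eval (μ := fun _ : Fin r => ν) i).ae hν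
        filter_upwards [ae_all_iff.2 this] with b hb i _ using hb i
      have h2 := Measure.quasiMeasurePreserving_fst (μ := uMeas ν r) (ν := Measure.pi fun _ : Fin r => ν) |>.ae ih
      have h3 := Measure.quasiMeasurePreserving_snd (μ := uMeas ν r) (ν := Measure.pi fun _ : Fin r => ν) |>.ae h1
      filter_upwards [h2, h3] with p hp hp'
      exact ⟨⟨p, ⟨hp.1, hp'⟩, rfl⟩, isU_ext hp.2 _⟩
    · exact ((isCompact_cpt hC (r + 1)).isClosed.measurableSet).inter measurableSet_isU

theorem ae_isU {ν : Measure R} [SigmaFinite ν] (r : ℕ) : ∀ᵐ u ∂(uMeas ν r), IsU u := by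
  induction r with
  | zero =>
    unfold uMeas
    rw [ae_dirac_iff measurableSet_isU]
    exact isU_one
  | succ r ih =>
    unfold uMeas
    rw [ae_map_iff measurable_ext.aemeasurable measurableSet_isU]
    have h2 := Measure.quasiMeasurePreserving_fst (μ := uMeas ν r) (ν := Measure.pi fun _ : Fin r => ν) |>.ae ih
    filter_upwards [h2] with p hp using isU_ext hp _

/-- The measure is finite on compact sets. -/
theorem uMeas_compact {ν : Measure R} [SigmaFinite ν] [IsFiniteMeasureOnCompacts ν] {r : ℕ}
    {C : Set (Matrix (Fin r) (Fin r) R)} (hC : IsCompact C) : uMeas ν r C < ∞ := by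
  induction r with
  | zero => exact measure_lt_top (Measure.dirac 1) C
  | succ r ih =>
    unfold uMeas
    rw [Measure.map_apply measurable_ext hC.isClosed.measurableSet]
    have h1 : (fun p : Matrix (Fin r) (Fin r) R × (Fin r → R) => ext p.1 p.2) ⁻¹' C ⊆ (top '' C) ×ˢ (col '' C) := by
      rintro ⟨A, b⟩ h
      exact ⟨⟨_, h, top_ext A b⟩, ⟨_, h, col_ext A b⟩⟩
    refine lt_of_le_of_lt (measure_mono h1) ?_
    rw [Measure.prod_prod]
    exact ENNReal.mul_lt_top (ih (hC.image continuous_top)) (hC.image continuous_col).measure_lt_top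

theorem integrable_cpt {ν : Measure R} [SigmaFinite ν] [IsFiniteMeasureOnCompacts ν] {r : ℕ}
    {f : Matrix (Fin r) (Fin r) R → ℂ} (hf : Measurable f) {c : ℝ} (hc : ∀ x, ‖f x‖ ≤ c)
    {C : Set (Matrix (Fin r) (Fin r) R)} (hC : IsCompact C) (h0 : ∀ x ∉ C, f x = 0) : Integrable f (uMeas ν r) := by
  have h1 : IntegrableOn f C (uMeas ν r) := by
    haveI : IsFiniteMeasure ((uMeas ν r).restrict C) := ⟨by
      rw [Measure.restrict_apply_univ]; exact uMeas_compact hC⟩
    exact integrable_bdd hf hc
  rw [← integrableOn_univ]
  refine h1.of_forall_diff_eq_zero MeasurableSet.univ fun x hx => h0 x hx.2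

/-- Multiplication by unitriangular matrices preserves the Haar measure. -/
theorem mulVec_mp {m : Measure R} [SigmaFinite m] [m.IsAddLeftInvariant] :
    ∀ (r : ℕ) {u : Matrix (Fin r) (Fin r) R}, IsU u →
      MeasurePreserving (fun s : Fin r → R => u *ᵥ s) (Measure.pi fun _ : Fin r => m) (Measure.pi fun _ : Fin r => m) := by
  intro r
  induction r with
  | zero =>
    intro u _
    have : (fun s : Fin 0 → R => u *ᵥ s) = id := by funext s; exact Subsingleton.elim _ _
    rw [this]
    exact MeasurePreserving.id _
  | succ r ih =>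
    intro u hu
    have hE := measurePreserving_piFinSuccAbove (fun _ : Fin (r + 1) => m) (Fin.last r)
    set E := MeasurableEquiv.piFinSuccAbove (fun _ : Fin (r + 1) => R) (Fin.last r) with hEdef
    have h1 : MeasurePreserving (fun p : R × (Fin r → R) => (p.1, top u *ᵥ p.2 + p.1 • col u))
        (m.prod (Measure.pi fun _ : Fin r => m)) (m.prod (Measure.pi fun _ : Fin r => m)) := by
      refine MeasurePreserving.skew_product (f := id) (g := fun t s => top u *ᵥ s + t • col u)
        (MeasurePreserving.id _) ?_ (Filter.Eventually.of_forall fun t => ?_)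
      · refine Continuous.measurable ?_
        refine continuous_pi fun i => ?_
        show Continuous fun p : R × (Fin r → R) => (∑ j, top u i j * p.2 j) + p.1 * col u i
        fun_prop
      · have := (measurePreserving_add_right (Measure.pi fun _ : Fin r => m) (t • col u)).comp (ih (isU_top hu))
        exact this.map_eq
    have h2 := (hE.symm).comp (h1.comp hE)
    convert h2 using 1
    funext s
    apply E.injective
    simp only [Function.comp_apply, MeasurableEquiv.apply_symm_apply]
    refine Prod.ext ?_ ?_
    · exact isU_mulVec_last hu s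
    · funext i
      show (u *ᵥ s) ((Fin.last r).succAbove i) = (top u *ᵥ (fun j => s ((Fin.last r).succAbove j))) i + s (Fin.last r) * col u i
      rw [Fin.succAbove_last]
      simp only [mulVec, dotProduct, Fin.sum_univ_castSucc]
      congr 1
      exact mul_comm _ _

end

end Pool.Agent.H496.R8
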