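import Mathlib
import Pool.Agent.H496.R8.Meas

/-! Lattices, characters, orthogonality. -/

set_option autoImplicit false
set_option linter.unusedSectionVars false

namespace Pool.Agent.H496.R8

open MeasureTheory Matrix Set
open scoped ComplexConjugate ENNReal Pointwise Classical

variable {R : Type*} [CommRing R] [TopologicalSpace R] [IsTopologicalRing R] [MeasurableSpace R] [BorelSpace R]
  [SecondCountableTopology R] [T2Space R] {r : ℕ}

/-- `O` is a discrete subring of `R` and `D` is a bounded fundamental domain of `R / O`. -/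
structure IsPair (O : Subring R) (D : Set R) : Prop where
  countable : (O : Set R).Countable
  discrete : ∀ C : Set R, IsCompact C → (C ∩ O).Finite
  meas : MeasurableSet D
  bdd : ∃ C : Set R, IsCompact C ∧ D ⊆ C
  fd : ∀ x : R, ∃! o : O, (o : R) + x ∈ D

/-- The lattice `O^r` in `R^r`. -/
def Lat (O : Subring R) (r : ℕ) : AddSubgroup (Fin r → R) := AddSubgroup.pi univ fun _ => O.toAddSubgroup

theorem mem_Lat {O : Subring R} {b : Fin r → R} : b ∈ Lat O r ↔ ∀ i, b i ∈ O := by
  unfold Lat
  rw [AddSubgroup.mem_pi]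
  simp

theorem Lat_countable {O : Subring R} {D : Set R} (h : IsPair O D) (r : ℕ) : Countable (Lat O r) := by
  haveI : Countable O := h.countable
  let f : (Lat O r) → (Fin r → O) := fun b i => ⟨b.1 i, mem_Lat.1 b.2 i⟩
  have hf : Function.Injective f := by
    intro b b' hb
    apply Subtype.ext
    funext i
    exact congrArg Subtype.val (congrFun hb i)
  exact hf.countable

theorem Lat_finite {O : Subring R} {D : Set R} (h : IsPair O D) {C : Set (Fin r → R)} (hC : IsCompact C) :
    (C ∩ Lat O r).Finite := by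
  have h1 : C ∩ Lat O r ⊆ univ.pi fun i => ((fun b : Fin r → R => b i) '' C) ∩ O := by
    rintro b ⟨hb, hb'⟩ i _
    exact ⟨⟨b, hb, rfl⟩, mem_Lat.1 hb' i⟩
  exact (Set.Finite.pi fun i => h.discrete _ (hC.image (continuous_apply i))).subset h1

theorem Lat_fd {O : Subring R} {D : Set R} (h : IsPair O D) (m : Measure R) [SigmaFinite m] (r : ℕ) :
    IsAddFundamentalDomain (Lat O r) (univ.pi fun _ : Fin r => D) (Measure.pi fun _ : Fin r => m) := by
  refine IsAddFundamentalDomain.mk' (MeasurableSet.univ_pi fun _ => h.meas).nullMeasurableSet fun x => ?_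
  choose o ho hu using fun i => h.fd (x i)
  refine ⟨⟨fun i => o i, mem_Lat.2 fun i => (o i).2⟩, ?_, ?_⟩
  · intro i _
    exact ho i
  · intro g hg
    apply Subtype.ext
    funext i
    have := hu i ⟨g.1 i, mem_Lat.1 g.2 i⟩ (hg i trivial)
    exact congrArg Subtype.val this

/-- A non trivial character, trivial on the lattice, has integral `0`. -/
theorem integral_char {O : Subring R} {D : Set R} (h : IsPair O D) (m : Measure R) [SigmaFinite m]
    [m.IsAddLeftInvariant] {c : (Fin r → R) → ℂ} (hc : ∀ x y, c (x + y) = c x * c y)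
    (h1 : ∀ g ∈ Lat O r, c g = 1) {t : Fin r → R} (ht : c t ≠ 1) :
    ∫ x in univ.pi fun _ : Fin r => D, c x ∂(Measure.pi fun _ : Fin r => m) = 0 := by
  haveI := Lat_countable h r
  set P := Measure.pi fun _ : Fin r => m with hP
  have hfd := Lat_fd h m r
  have hfd2 : IsAddFundamentalDomain (Lat O r) (t +ᵥ univ.pi fun _ : Fin r => D) P := hfd.vadd_of_comm t
  have e1 := hfd.setIntegral_eq hfd2 (f := c) (fun g x => by
    show c (g.1 + x) = c x
    rw [hc, h1 _ g.2, one_mul])
  have e2 : ∫ x in (t +ᵥ univ.pi fun _ : Fin r => D), c x ∂P = c t * ∫ x in univ.pi fun _ : Fin r => D, c x ∂P := by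
    have h3 : (t +ᵥ univ.pi fun _ : Fin r => D) = (fun x => t + x) '' (univ.pi fun _ : Fin r => D) := rfl
    have h4 : MeasurePreserving (fun x : Fin r → R => t + x) P P := measurePreserving_add_left P t
    rw [h3, h4.setIntegral_image_emb (measurableEmbedding_addLeft t), ← integral_const_mul]
    exact integral_congr_ae (Filter.Eventually.of_forall fun x => hc t x)
  rw [e2] at e1
  have e3 : (1 - c t) * ∫ x in univ.pi fun _ : Fin r => D, c x ∂P = 0 := by
    rw [sub_mul, one_mul, sub_eq_zero]; exact e1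
  exact (mul_eq_zero.1 e3).resolve_left (sub_ne_zero.2 (Ne.symm ht))

/-- The character `ψ(u) = χ(∑ μ_i u_{i,i+1})` of the unitriangular matrices. -/
noncomputable def psi (χ : AddChar R Circle) (μ : ℕ → R) {r : ℕ} (u : Matrix (Fin r) (Fin r) R) : ℂ :=
  χ (∑ i : Fin r, ∑ j : Fin r, if (j : ℕ) = i + 1 then μ i * u i j else 0)

/-- The character of the last column. -/
noncomputable def chr (χ : AddChar R Circle) (μ : ℕ → R) {r : ℕ} (b : Fin (r + 1) → R) : ℂ :=
  χ (μ r * b (Fin.last r))

theorem psi_ext (χ : AddChar R Circle) (μ : ℕ → R) (u : Matrix (Fin (r + 1)) (Fin (r + 1)) R) (b : Fin (r + 1) → R) :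
    psi χ μ (ext u b) = psi χ μ u * chr χ μ b := by
  unfold psi chr
  rw [← Circle.coe_mul, ← AddChar.map_add_eq_mul]
  congr 2
  rw [Fin.sum_univ_castSucc (n := r + 1)]
  have h1 : (∑ j : Fin (r + 1 + 1), if (j : ℕ) = (Fin.last (r + 1) : Fin (r + 1 + 1)) + 1 then
      μ (Fin.last (r + 1) : Fin (r + 1 + 1)) * ext u b (Fin.last (r + 1)) j else 0) = 0 := by
    refine Finset.sum_eq_zero fun j _ => ?_
    rw [if_neg]
    rw [Fin.val_last]
    have := j.2
    omega
  rw [h1, add_zero]
  have h2 : ∀ i : Fin (r + 1), (∑ j : Fin (r + 1 + 1), if (j : ℕ) = (i.castSucc : ℕ) + 1 then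
      μ (i.castSucc : ℕ) * ext u b i.castSucc j else 0) =
      (∑ j : Fin (r + 1), if (j : ℕ) = (i : ℕ) + 1 then μ i * u i j else 0) +
        if i = Fin.last r then μ r * b (Fin.last r) else 0 := by
    intro i
    rw [Fin.sum_univ_castSucc]
    congr 1
    · refine Finset.sum_congr rfl fun j _ => ?_
      simp
    · by_cases hi : i = Fin.last r
      · subst hi
        simp
      · rw [if_neg, if_neg hi]
        rw [Fin.val_last, Fin.val_castSucc]
        intro h
        apply hi
        apply Fin.ext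
        rw [Fin.val_last]
        omega
  simp_rw [h2]
  rw [Finset.sum_add_distrib]
  congr 1
  simp

theorem psi_small (χ : AddChar R Circle) (μ : ℕ → R) (u : Matrix (Fin 1) (Fin 1) R) : psi χ μ u = 1 := by
  unfold psi
  simp

theorem norm_psi (χ : AddChar R Circle) (μ : ℕ → R) (u : Matrix (Fin r) (Fin r) R) : ‖psi χ μ u‖ = 1 :=
  Circle.norm_coe _

theorem norm_chr (χ : AddChar R Circle) (μ : ℕ → R) (b : Fin (r + 1) → R) : ‖chr χ μ b‖ = 1 :=
  Circle.norm_coe _

theorem continuous_psi {χ : AddChar R Circle} (hχ : Continuous χ) (μ : ℕ → R) :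
    Continuous (psi χ μ : Matrix (Fin r) (Fin r) R → ℂ) := by
  unfold psi
  refine continuous_subtype_val.comp (hχ.comp ?_)
  refine continuous_finsetSum _ fun i _ => continuous_finsetSum _ fun j _ => ?_
  by_cases h : (j : ℕ) = i + 1
  · simp only [h, if_true]
    exact continuous_const.mul (continuous_id.matrix_elem i j)
  · simp only [h, if_false]
    exact continuous_const

theorem continuous_chr {χ : AddChar R Circle} (hχ : Continuous χ) (μ : ℕ → R) :
    Continuous (chr χ μ : (Fin (r + 1) → R) → ℂ) :=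
  continuous_subtype_val.comp (hχ.comp (continuous_const.mul (continuous_apply _)))

theorem chr_add (χ : AddChar R Circle) (μ : ℕ → R) (b c : Fin (r + 1) → R) :
    chr χ μ (b + c) = chr χ μ b * chr χ μ c := by
  unfold chr
  rw [Pi.add_apply, mul_add, AddChar.map_add_eq_mul, Circle.coe_mul]

theorem chr_neg (χ : AddChar R Circle) (μ : ℕ → R) (b : Fin (r + 1) → R) :
    chr χ μ (-b) = conj (chr χ μ b) := by
  unfold chr
  rw [Pi.neg_apply, mul_neg, AddChar.map_neg_eq_inv, Circle.coe_inv_eq_conj]

theorem chr_sub (χ : AddChar R Circle) (μ : ℕ → R) (b c : Fin (r + 1) → R) :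
    chr χ μ (b - c) = chr χ μ b * conj (chr χ μ c) := by
  rw [sub_eq_add_neg, chr_add, chr_neg]

/-- `χ(μ_i ·)` is trivial on `O` and `χ(μ_i a ·)` is not trivial for `0 ≠ a ∈ O`. -/
structure IsDual (O : Subring R) (χ : AddChar R Circle) (x : R) : Prop where
  triv : ∀ a ∈ O, χ (x * a) = 1
  nondeg : ∀ a ∈ O, (∀ y, χ (x * (a * y)) = 1) → a = 0

theorem chr_lat {O : Subring R} {χ : AddChar R Circle} {μ : ℕ → R} (h : IsDual O χ (μ r)) {b : Fin (r + 1) → R}
    (hb : b ∈ Lat O (r + 1)) : chr χ μ b = 1 := by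
  unfold chr
  rw [h.triv _ (mem_Lat.1 hb _), Circle.coe_one]

/-- Orthogonality: only the matrices with last row `(0, …, 0, 1)` survive. -/
theorem orth {O : Subring R} {D : Set R} (h : IsPair O D) (m : Measure R) [SigmaFinite m]
    [m.IsAddLeftInvariant] {χ : AddChar R Circle} {μ : ℕ → R} (hd : IsDual O χ (μ r))
    {A : Matrix (Fin (r + 1)) (Fin (r + 1)) R} (hA : ∀ i j, A i j ∈ O) :
    ∫ b in univ.pi fun _ : Fin (r + 1) => D, conj (chr χ μ b) * chr χ μ (A *ᵥ b) ∂(Measure.pi fun _ : Fin (r + 1) => m) =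
      if (∀ j : Fin r, A (Fin.last r) j.castSucc = 0) ∧ A (Fin.last r) (Fin.last r) = 1 then
        (((m D).toReal ^ (r + 1) : ℝ) : ℂ) else 0 := by
  by_cases hc : (∀ j : Fin r, A (Fin.last r) j.castSucc = 0) ∧ A (Fin.last r) (Fin.last r) = 1
  · rw [if_pos hc]
    have h1 : ∀ b : Fin (r + 1) → R, conj (chr χ μ b) * chr χ μ (A *ᵥ b) = 1 := by
      intro b
      have : (A *ᵥ b) (Fin.last r) = b (Fin.last r) := by
        rw [mulVec, dotProduct, Fin.sum_univ_castSucc]
        simp [hc.1, hc.2]
      unfold chr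
      rw [this, ← Circle.coe_inv_eq_conj, ← Circle.coe_mul, inv_mul_cancel, Circle.coe_one]
    simp_rw [h1]
    rw [integral_const, Complex.real_smul, mul_one, Measure.real, Measure.restrict_apply_univ, Measure.pi_pi,
      ENNReal.toReal_prod, Finset.prod_const, Finset.card_univ, Fintype.card_fin]
  · rw [if_neg hc]
    set c : (Fin (r + 1) → R) → ℂ := fun b => conj (chr χ μ b) * chr χ μ (A *ᵥ b) with hcdef
    have hmul : ∀ x y, c (x + y) = c x * c y := by
      intro x y
      simp only [hcdef]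
      rw [mulVec_add, chr_add, chr_add, map_mul]
      ring
    have hlat : ∀ g ∈ Lat O (r + 1), c g = 1 := by
      intro g hg
      simp only [hcdef]
      rw [chr_lat hd hg, chr_lat hd, map_one, one_mul]
      rw [mem_Lat]
      intro i
      show ∑ j, A i j * g j ∈ O
      exact Subring.sum_mem _ fun j _ => Subring.mul_mem _ (hA i j) (mem_Lat.1 hg j)
    have hex : ∃ j, A (Fin.last r) j - (1 : Matrix (Fin (r + 1)) (Fin (r + 1)) R) (Fin.last r) j ≠ 0 := by
      by_contra hcon
      push Not at hcon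
      apply hc
      refine ⟨fun j => ?_, ?_⟩
      · have := hcon j.castSucc
        rw [Matrix.one_apply_ne (Fin.castSucc_lt_last j).ne', sub_zero] at this
        exact this
      · have := hcon (Fin.last r)
        rw [Matrix.one_apply_eq] at this
        exact sub_eq_zero.1 this
    obtain ⟨j, hj⟩ := hex
    have haO : A (Fin.last r) j - (1 : Matrix (Fin (r + 1)) (Fin (r + 1)) R) (Fin.last r) j ∈ O := by
      refine Subring.sub_mem _ (hA _ _) ?_
      rw [Matrix.one_apply]
      split_ifs
      · exact Subring.one_mem _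
      · exact Subring.zero_mem _
    obtain ⟨y, hy⟩ : ∃ y, χ (μ r * ((A (Fin.last r) j - (1 : Matrix (Fin (r + 1)) (Fin (r + 1)) R) (Fin.last r) j) * y)) ≠ 1 := by
      by_contra hcon
      push Not at hcon
      exact hj (hd.nondeg _ haO hcon)
    refine integral_char h m hmul hlat (t := Pi.single j y) ?_
    show conj (chr χ μ (Pi.single j y)) * chr χ μ (A *ᵥ (Pi.single j y : Fin (r + 1) → R)) ≠ 1
    have e1 : (A *ᵥ (Pi.single j y : Fin (r + 1) → R)) (Fin.last r) = A (Fin.last r) j * y := by
      rw [mulVec_single]; simp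
    have e2 : (Pi.single j y : Fin (r + 1) → R) (Fin.last r) =
        (1 : Matrix (Fin (r + 1)) (Fin (r + 1)) R) (Fin.last r) j * y := by
      by_cases hjl : j = Fin.last r
      · subst hjl; simp
      · rw [Pi.single_eq_of_ne (Ne.symm hjl), Matrix.one_apply_ne (Ne.symm hjl), zero_mul]
    unfold chr
    rw [e1, e2, ← Circle.coe_inv_eq_conj, ← Circle.coe_mul, ← AddChar.map_neg_eq_inv, ← AddChar.map_add_eq_mul]
    have e3 : -(μ r * ((1 : Matrix (Fin (r + 1)) (Fin (r + 1)) R) (Fin.last r) j * y)) + μ r * (A (Fin.last r) j * y) =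
        μ r * ((A (Fin.last r) j - (1 : Matrix (Fin (r + 1)) (Fin (r + 1)) R) (Fin.last r) j) * y) := by ring
    rw [e3]
    intro hcon
    apply hy
    exact Circle.coe_eq_one.1 hcon

end Pool.Agent.H496.R8
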