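import Mathlib
import Pool.Agent.H496.R8.Lat

/-! The sum over the mirabolic subgroup: only the unipotent elements survive. -/

set_option autoImplicit false
set_option linter.unusedSectionVars false
set_option linter.style.haveILetI false

namespace Pool.Agent.H496.R8

open MeasureTheory Matrix Set
open scoped ComplexConjugate ENNReal Pointwise Classical

variable {R : Type*} [CommRing R] [TopologicalSpace R] [IsTopologicalRing R] [MeasurableSpace R] [BorelSpace R]
  [SecondCountableTopology R] [T2Space R] {r : ℕ}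

/-- Bounded measurable functions with compact support. -/
structure IsK {X : Type*} [TopologicalSpace X] [MeasurableSpace X] (k : X → ℂ) : Prop where
  meas : Measurable k
  bdd : ∃ c : ℝ, ∀ x, ‖k x‖ ≤ c
  cpt : ∃ C : Set X, IsCompact C ∧ ∀ x ∉ C, k x = 0

/-- The integrand `ψ(u)⁻¹ ψ(u') k(u'⁻¹ γ u)`. -/
noncomputable def gI (χ : AddChar R Circle) (μ : ℕ → R) {r : ℕ} (k : Matrix (Fin r) (Fin r) R → ℂ)
    (γ : Matrix (Fin r) (Fin r) R) (p : Matrix (Fin r) (Fin r) R × Matrix (Fin r) (Fin r) R) : ℂ :=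
  conj (psi χ μ p.1) * psi χ μ p.2 * k (p.2.adjugate * γ * p.1)

/-- The double Whittaker integral of `k(u'⁻¹ γ u)`. -/
noncomputable def JJ (m : Measure R) (D : Set R) (χ : AddChar R Circle) (μ : ℕ → R) {r : ℕ}
    (k : Matrix (Fin r) (Fin r) R → ℂ) (γ : Matrix (Fin r) (Fin r) R) : ℂ :=
  ∫ u, ∫ u', gI χ μ k γ (u, u') ∂(uMeas (m.restrict D) r) ∂(uMeas (m.restrict D) r)

theorem measurable_gI {χ : AddChar R Circle} (hχ : Continuous χ) (μ : ℕ → R) {k : Matrix (Fin r) (Fin r) R → ℂ}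
    (hk : Measurable k) (γ : Matrix (Fin r) (Fin r) R) : Measurable (gI χ μ k γ) := by
  unfold gI
  refine Measurable.mul ?_ (hk.comp (Continuous.measurable (by fun_prop)))
  exact ((Complex.continuous_conj.comp ((continuous_psi hχ μ).comp continuous_fst)).mul
    ((continuous_psi hχ μ).comp continuous_snd)).measurable

theorem norm_gI (χ : AddChar R Circle) (μ : ℕ → R) {k : Matrix (Fin r) (Fin r) R → ℂ} {c : ℝ} (hc : ∀ x, ‖k x‖ ≤ c)
    (γ : Matrix (Fin r) (Fin r) R) (p : Matrix (Fin r) (Fin r) R × Matrix (Fin r) (Fin r) R) :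
    ‖gI χ μ k γ p‖ ≤ c := by
  unfold gI
  rw [norm_mul, norm_mul, RCLike.norm_conj, norm_psi, norm_psi, one_mul, one_mul]
  exact hc _

/-- The integral over the last column. -/
noncomputable def red (m : Measure R) (χ : AddChar R Circle) (μ : ℕ → R) {r : ℕ}
    (k : Matrix (Fin (r + 2)) (Fin (r + 2)) R → ℂ) (M : Matrix (Fin (r + 1)) (Fin (r + 1)) R) : ℂ :=
  ∫ s : Fin (r + 1) → R, conj (chr χ μ s) * k (ext M s) ∂(Measure.pi fun _ => m)

theorem integrable_vec {m : Measure R} [SigmaFinite m] [IsFiniteMeasureOnCompacts m] {f : (Fin r → R) → ℂ}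
    (hf : Measurable f) {c : ℝ} (hc : ∀ x, ‖f x‖ ≤ c) {C : Set (Fin r → R)} (hC : IsCompact C)
    (h0 : ∀ x ∉ C, f x = 0) : Integrable f (Measure.pi fun _ => m) := by
  have h1 : IntegrableOn f C (Measure.pi fun _ => m) := by
    haveI : IsFiniteMeasure ((Measure.pi fun _ : Fin r => m).restrict C) := ⟨by
      rw [Measure.restrict_apply_univ]; exact hC.measure_lt_top⟩
    exact integrable_bdd hf hc
  rw [← integrableOn_univ]
  refine h1.of_forall_sdiff_eq_zero MeasurableSet.univ fun x hx => h0 x hx.2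

theorem norm_conj_mul (z w : ℂ) (hz : ‖z‖ = 1) : ‖conj z * w‖ = ‖w‖ := by
  rw [norm_mul, RCLike.norm_conj, hz, one_mul]

theorem isK_red {m : Measure R} [SigmaFinite m] [IsFiniteMeasureOnCompacts m] {χ : AddChar R Circle}
    (hχ : Continuous χ) (μ : ℕ → R) {k : Matrix (Fin (r + 2)) (Fin (r + 2)) R → ℂ} (hk : IsK k) :
    IsK (red m χ μ k) := by
  obtain ⟨c, hc⟩ := hk.bdd
  obtain ⟨C, hC, h0⟩ := hk.cpt
  have hm : Measurable fun p : Matrix (Fin (r + 1)) (Fin (r + 1)) R × (Fin (r + 1) → R) =>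
      conj (chr χ μ p.2) * k (ext p.1 p.2) := by
    refine Measurable.mul ?_ (hk.meas.comp measurable_ext)
    exact (Complex.continuous_conj.comp ((continuous_chr hχ μ).comp continuous_snd)).measurable
  refine ⟨meas_int hm, ⟨(Measure.pi fun _ : Fin (r + 1) => m).real (col '' C) * |c|, fun M => ?_⟩,
    ⟨top '' C, hC.image continuous_top, fun M hM => ?_⟩⟩
  · have hz : ∀ s ∉ col '' C, conj (chr χ μ s) * k (ext M s) = 0 := by
      intro s hs
      rw [h0 _ (fun h => hs ⟨_, h, col_ext M s⟩), mul_zero]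
    unfold red
    have e1 : ∫ s : Fin (r + 1) → R, conj (chr χ μ s) * k (ext M s) ∂(Measure.pi fun _ => m) =
        ∫ s in col '' C, conj (chr χ μ s) * k (ext M s) ∂(Measure.pi fun _ => m) := by
      symm
      exact setIntegral_eq_integral_of_forall_compl_eq_zero fun s hs => hz s hs
    rw [e1]
    have h2 := norm_setIntegral_le_of_norm_le_const (μ := Measure.pi fun _ : Fin (r + 1) => m)
      (s := col '' C) (f := fun s => conj (chr χ μ s) * k (ext M s)) (C := |c|)
      (hC.image continuous_col).measure_lt_top (fun s _ => by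
        rw [norm_conj_mul _ _ (norm_chr _ _ _)]
        exact (hc _).trans (le_abs_self c))
    rw [mul_comm]
    exact h2
  · unfold red
    rw [← integral_zero (Fin (r + 1) → R) ℂ (μ := Measure.pi fun _ => m)]
    refine integral_congr_ae (Filter.Eventually.of_forall fun s => ?_)
    show conj (chr χ μ s) * k (ext M s) = 0
    rw [h0 _ (fun h => hM ⟨_, h, top_ext M s⟩), mul_zero]

/-- The inner integral over the last column of `u'`. -/
noncomputable def EE (m : Measure R) (D : Set R) (χ : AddChar R Circle) (μ : ℕ → R) {r : ℕ}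
    (k : Matrix (Fin (r + 2)) (Fin (r + 2)) R → ℂ) (A : Matrix (Fin (r + 1)) (Fin (r + 1)) R)
    (z : (Matrix (Fin (r + 1)) (Fin (r + 1)) R × (Fin (r + 1) → R)) × Matrix (Fin (r + 1)) (Fin (r + 1)) R)
    (β : Fin (r + 1) → R) : ℂ :=
  ∫ b' : Fin (r + 1) → R, chr χ μ b' *
    k (ext (z.2.adjugate * A * z.1.1) (z.2.adjugate *ᵥ (A *ᵥ z.1.2 + β - b'))) ∂(Measure.pi fun _ => m.restrict D)

section
variable {O : Subring R} {D : Set R} (hP : IsPair O D) (m : Measure R) [SigmaFinite m] [IsFiniteMeasureOnCompacts m]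
  [m.IsAddLeftInvariant] [m.IsNegInvariant] {χ : AddChar R Circle} (hχ : Continuous χ) {μ : ℕ → R}

include hP in
theorem fin_restrict : IsFiniteMeasure (m.restrict D) := by
  obtain ⟨C, hC, hDC⟩ := hP.bdd
  exact ⟨by rw [Measure.restrict_apply_univ]; exact lt_of_le_of_lt (measure_mono hDC) hC.measure_lt_top⟩

include hP hχ in
/-- The sum over the last column of `γ` unfolds the integral. -/
theorem EE_sum (hd : IsDual O χ (μ r)) {k : Matrix (Fin (r + 2)) (Fin (r + 2)) R → ℂ} (hk : IsK k)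
    (A : Matrix (Fin (r + 1)) (Fin (r + 1)) R)
    {z : (Matrix (Fin (r + 1)) (Fin (r + 1)) R × (Fin (r + 1) → R)) × Matrix (Fin (r + 1)) (Fin (r + 1)) R}
    (hz : IsU z.2) :
    ∑' β : Lat O (r + 1), EE m D χ μ k A z β.1 = chr χ μ (A *ᵥ z.1.2) * red m χ μ k (z.2.adjugate * A * z.1.1) := by
  haveI := Lat_countable hP (r + 1)
  obtain ⟨c, hc⟩ := hk.bdd
  obtain ⟨C, hC, h0⟩ := hk.cpt
  set M := z.2.adjugate * A * z.1.1 with hM
  set P := Measure.pi fun _ : Fin (r + 1) => m with hPdef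
  set G : (Fin (r + 1) → R) → ℂ := fun s => k (ext M (z.2.adjugate *ᵥ s)) with hG
  have hcont : Continuous fun s : Fin (r + 1) → R => z.2.adjugate *ᵥ s :=
    (continuous_const (y := z.2.adjugate)).matrix_mulVec continuous_id
  have hGm : Measurable G :=
    hk.meas.comp ((continuous_ext.comp (continuous_const.prodMk hcont)).measurable)
  have hG0 : ∀ s ∉ (fun t : Fin (r + 1) → R => z.2 *ᵥ t) '' (col '' C), G s = 0 := by
    intro s hs
    refine h0 _ fun h => hs ⟨_, ⟨_, h, col_ext _ _⟩, ?_⟩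
    show z.2 *ᵥ (z.2.adjugate *ᵥ s) = s
    rw [mulVec_mulVec, mul_adj_self (isU_det hz), one_mulVec]
  have hC2 : IsCompact ((fun t : Fin (r + 1) → R => z.2 *ᵥ t) '' (col '' C)) :=
    (hC.image continuous_col).image ((continuous_const (y := z.2)).matrix_mulVec continuous_id)
  -- the function on the whole space
  set H : (Fin (r + 1) → R) → ℂ := fun x => chr χ μ x * G (A *ᵥ z.1.2 - x) with hH
  have hHm : Measurable H := (continuous_chr hχ μ).measurable.mul
    (hGm.comp ((continuous_const.sub continuous_id).measurable))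
  have hHi : Integrable H P := by
    refine integrable_vec hHm (c := c) (fun x => ?_) (C := (fun s => A *ᵥ z.1.2 - s) '' ((fun t : Fin (r + 1) → R => z.2 *ᵥ t) '' (col '' C)))
      (hC2.image (continuous_const.sub continuous_id)) fun x hx => ?_
    · rw [norm_mul, norm_chr, one_mul]; exact hc _
    · rw [hH]
      show chr χ μ x * G (A *ᵥ z.1.2 - x) = 0
      rw [hG0 _ (fun h => hx ⟨_, h, by simp⟩), mul_zero]
  have h1 : ∫ x, H x ∂P = ∑' β : Lat O (r + 1), ∫ x in univ.pi fun _ : Fin (r + 1) => D, H (-β.1 + x) ∂P :=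
    (Lat_fd hP m (r + 1)).integral_eq_tsum' H hHi
  have h2 : ∀ β : Lat O (r + 1), ∫ x in univ.pi fun _ : Fin (r + 1) => D, H (-β.1 + x) ∂P = EE m D χ μ k A z β.1 := by
    intro β
    unfold EE
    rw [hPdef, Measure.restrict_pi_pi]
    refine integral_congr_ae (Filter.Eventually.of_forall fun x => ?_)
    show chr χ μ (-β.1 + x) * G (A *ᵥ z.1.2 - (-β.1 + x)) = _
    have e1 : A *ᵥ z.1.2 - (-β.1 + x) = A *ᵥ z.1.2 + β.1 - x := by abel
    rw [chr_add, chr_neg, chr_lat hd β.2, map_one, one_mul, e1]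
  rw [← tsum_congr h2, ← h1]
  -- substitution
  have h3 : ∫ x, H x ∂P = ∫ s, H (A *ᵥ z.1.2 - s) ∂P := (integral_sub_left_eq_self H P (A *ᵥ z.1.2)).symm
  rw [h3]
  have h4 : ∀ s, H (A *ᵥ z.1.2 - s) = chr χ μ (A *ᵥ z.1.2) * (conj (chr χ μ s) * G s) := by
    intro s
    show chr χ μ (A *ᵥ z.1.2 - s) * G (A *ᵥ z.1.2 - (A *ᵥ z.1.2 - s)) = _
    rw [chr_sub, sub_sub_cancel, mul_assoc]
  simp_rw [h4]
  rw [integral_const_mul]
  congr 1
  have h5 : MeasurePreserving (fun s : Fin (r + 1) → R => z.2 *ᵥ s) P P := mulVec_mp (m := m) (r + 1) hz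
  have h6 : Measurable fun s => conj (chr χ μ s) * G s :=
    ((Complex.continuous_conj.comp (continuous_chr hχ μ)).measurable).mul hGm
  have h7 : ∫ s, conj (chr χ μ s) * G s ∂P = ∫ s, conj (chr χ μ (z.2 *ᵥ s)) * G (z.2 *ᵥ s) ∂P := by
    conv_lhs => rw [← h5.map_eq]
    rw [integral_map h5.measurable.aemeasurable h6.aestronglyMeasurable]
  rw [h7]
  unfold red
  refine integral_congr_ae (Filter.Eventually.of_forall fun s => ?_)
  show conj (chr χ μ (z.2 *ᵥ s)) * k (ext M (z.2.adjugate *ᵥ (z.2 *ᵥ s))) = conj (chr χ μ s) * k (ext M s)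
  rw [mulVec_mulVec, adj_mul_self (isU_det hz), one_mulVec]
  unfold chr
  rw [isU_mulVec_last hz]

/-- The space of `(u, b, u')`. -/
noncomputable abbrev ZZ (m : Measure R) (D : Set R) (r : ℕ) :
    Measure ((Matrix (Fin (r + 1)) (Fin (r + 1)) R × (Fin (r + 1) → R)) × Matrix (Fin (r + 1)) (Fin (r + 1)) R) :=
  ((uMeas (m.restrict D) (r + 1)).prod (Measure.pi fun _ : Fin (r + 1) => m.restrict D)).prod
    (uMeas (m.restrict D) (r + 1))

/-- The weight. -/
noncomputable def WW (χ : AddChar R Circle) (μ : ℕ → R) {r : ℕ}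
    (z : (Matrix (Fin (r + 1)) (Fin (r + 1)) R × (Fin (r + 1) → R)) × Matrix (Fin (r + 1)) (Fin (r + 1)) R) : ℂ :=
  conj (psi χ μ z.1.1 * chr χ μ z.1.2) * psi χ μ z.2

theorem norm_WW (χ : AddChar R Circle) (μ : ℕ → R)
    (z : (Matrix (Fin (r + 1)) (Fin (r + 1)) R × (Fin (r + 1) → R)) × Matrix (Fin (r + 1)) (Fin (r + 1)) R) :
    ‖WW χ μ z‖ = 1 := by
  unfold WW
  rw [norm_mul, RCLike.norm_conj, norm_mul, norm_psi, norm_chr, norm_psi]
  norm_num

include hχ in
theorem measurable_WW : Measurable (WW (r := r) χ μ) := by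
  unfold WW
  refine Continuous.measurable ?_
  exact (Complex.continuous_conj.comp (((continuous_psi hχ μ).comp (continuous_fst.comp continuous_fst)).mul
    ((continuous_chr hχ μ).comp (continuous_snd.comp continuous_fst)))).mul
    ((continuous_psi hχ μ).comp continuous_snd)

include hχ in
theorem measurable_EE {k : Matrix (Fin (r + 2)) (Fin (r + 2)) R → ℂ} (hk : IsK k)
    (A : Matrix (Fin (r + 1)) (Fin (r + 1)) R) (β : Fin (r + 1) → R) :
    Measurable fun z => EE m D χ μ k A z β := by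
  unfold EE
  refine meas_int (f := fun p : ((Matrix (Fin (r + 1)) (Fin (r + 1)) R × (Fin (r + 1) → R)) ×
    Matrix (Fin (r + 1)) (Fin (r + 1)) R) × (Fin (r + 1) → R) => chr χ μ p.2 *
    k (ext (p.1.2.adjugate * A * p.1.1.1) (p.1.2.adjugate *ᵥ (A *ᵥ p.1.1.2 + β - p.2)))) ?_
  refine Measurable.mul ((continuous_chr hχ μ).comp continuous_snd).measurable ?_
  refine hk.meas.comp (Continuous.measurable ?_)
  refine continuous_ext.comp (Continuous.prodMk ?_ ?_)
  · fun_prop
  · have a1 : Continuous fun p : ((Matrix (Fin (r + 1)) (Fin (r + 1)) R × (Fin (r + 1) → R)) ×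
        Matrix (Fin (r + 1)) (Fin (r + 1)) R) × (Fin (r + 1) → R) => p.1.2.adjugate := by fun_prop
    have a2 : Continuous fun p : ((Matrix (Fin (r + 1)) (Fin (r + 1)) R × (Fin (r + 1) → R)) ×
        Matrix (Fin (r + 1)) (Fin (r + 1)) R) × (Fin (r + 1) → R) => A *ᵥ p.1.1.2 :=
      (continuous_const (y := A)).matrix_mulVec (by fun_prop)
    exact a1.matrix_mulVec ((a2.add continuous_const).sub continuous_snd)

include hP in
theorem norm_EE {k : Matrix (Fin (r + 2)) (Fin (r + 2)) R → ℂ} {c : ℝ} (hc : ∀ x, ‖k x‖ ≤ c)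
    (A : Matrix (Fin (r + 1)) (Fin (r + 1)) R) (β : Fin (r + 1) → R)
    (z : (Matrix (Fin (r + 1)) (Fin (r + 1)) R × (Fin (r + 1) → R)) × Matrix (Fin (r + 1)) (Fin (r + 1)) R) :
    ‖EE m D χ μ k A z β‖ ≤ c * (Measure.pi fun _ : Fin (r + 1) => m.restrict D).real univ := by
  haveI := fin_restrict hP m
  unfold EE
  refine norm_integral_le_of_norm_le_const (Filter.Eventually.of_forall fun b => ?_)
  rw [norm_mul, norm_chr, one_mul]
  exact hc _

include hP hχ in
theorem JJ_succ {k : Matrix (Fin (r + 2)) (Fin (r + 2)) R → ℂ} (hk : IsK k)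
    (A : Matrix (Fin (r + 1)) (Fin (r + 1)) R) (β : Fin (r + 1) → R) :
    JJ m D χ μ k (ext A β) = ∫ z, WW χ μ z * EE m D χ μ k A z β ∂(ZZ m D r) := by
  haveI := fin_restrict hP m
  obtain ⟨c, hc⟩ := hk.bdd
  set U1 := uMeas (m.restrict D) (r + 1) with hU1
  set U2 := uMeas (m.restrict D) (r + 2) with hU2
  set V := Measure.pi fun _ : Fin (r + 1) => m.restrict D with hV
  have hgm := measurable_gI hχ μ hk.meas (ext A β)
  have hgb := norm_gI χ μ hc (ext A β)
  set F1 : Matrix (Fin (r + 2)) (Fin (r + 2)) R → ℂ := fun u => ∫ u', gI χ μ k (ext A β) (u, u') ∂U2 with hF1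
  have hFm : Measurable F1 := meas_int (μ := U2) hgm
  have hFb : ∀ u : Matrix (Fin (r + 2)) (Fin (r + 2)) R, ‖F1 u‖ ≤ c * U2.real univ := fun u =>
    norm_integral_le_of_norm_le_const (Filter.Eventually.of_forall fun u' => hgb (u, u'))
  have h1 : JJ m D χ μ k (ext A β) = ∫ u, ∫ b, F1 (ext u b) ∂V ∂U1 :=
    integral_succ (m.restrict D) hFm (integrable_bdd hFm hFb)
  have h2 : ∀ u b, F1 (ext u b) = ∫ u', WW χ μ ((u, b), u') * EE m D χ μ k A ((u, b), u') β ∂U1 := by
    intro u b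
    have hm1 : Measurable fun u' => gI χ μ k (ext A β) (ext u b, u') := hgm.comp measurable_prodMk_left
    have h3 : F1 (ext u b) = ∫ u', ∫ b', gI χ μ k (ext A β) (ext u b, ext u' b') ∂V ∂U1 :=
      integral_succ (m.restrict D) hm1 (integrable_bdd hm1 fun u' => hgb (ext u b, u'))
    rw [h3]
    refine integral_congr_ae ?_
    filter_upwards [ae_isU (ν := m.restrict D) (r + 1)] with u' hu'
    unfold EE
    rw [← integral_const_mul]
    refine integral_congr_ae (Filter.Eventually.of_forall fun b' => ?_)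
    show gI χ μ k (ext A β) (ext u b, ext u' b') = WW χ μ ((u, b), u') * (chr χ μ b' *
      k (ext (u'.adjugate * A * u) (u'.adjugate *ᵥ (A *ᵥ b + β - b'))))
    unfold gI WW
    dsimp only
    rw [conj_ext (isU_det hu'), psi_ext, psi_ext]
    ring
  rw [h1]
  simp_rw [h2]
  have hWE : Measurable fun z => WW χ μ z * EE m D χ μ k A z β := (measurable_WW hχ).mul (measurable_EE m hχ hk A β)
  have hWEb : ∀ z : (Matrix (Fin (r + 1)) (Fin (r + 1)) R × (Fin (r + 1) → R)) × Matrix (Fin (r + 1)) (Fin (r + 1)) R,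
      ‖WW χ μ z * EE m D χ μ k A z β‖ ≤ c * V.real univ := by
    intro z
    rw [norm_mul, norm_WW, one_mul]
    exact norm_EE hP m hc A β z
  have hi1 : Integrable (fun z => WW χ μ z * EE m D χ μ k A z β) (ZZ m D r) := integrable_bdd hWE hWEb
  rw [integral_prod _ hi1]
  have hi2 := hi1.integral_prod_left
  rw [integral_prod _ hi2]

include hP hχ in
/-- One step: the last column. -/
theorem one_step (hd : IsDual O χ (μ r)) {k : Matrix (Fin (r + 2)) (Fin (r + 2)) R → ℂ} (hk : IsK k)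
    {A : Matrix (Fin (r + 1)) (Fin (r + 1)) R} (hA : ∀ i j, A i j ∈ O) :
    ∑' β : Lat O (r + 1), JJ m D χ μ k (ext A β.1) =
      (if (∀ j : Fin r, A (Fin.last r) j.castSucc = 0) ∧ A (Fin.last r) (Fin.last r) = 1 then
        (((m D).toReal ^ (r + 1) : ℝ) : ℂ) else 0) * JJ m D χ μ (red m χ μ k) A := by
  haveI := Lat_countable hP (r + 1)
  haveI := fin_restrict hP m
  obtain ⟨c, hc⟩ := hk.bdd
  obtain ⟨C, hC, h0⟩ := hk.cpt
  obtain ⟨CD, hCD, hDC⟩ := hP.bdd
  have hae : ∀ᵐ x ∂(m.restrict D), x ∈ CD := by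
    filter_upwards [ae_restrict_mem hP.meas] with x hx using hDC hx
  -- the finite set of `β`
  set Q : Set ((Matrix (Fin (r + 1)) (Fin (r + 1)) R × (Fin (r + 1) → R)) × Matrix (Fin (r + 1)) (Fin (r + 1)) R) :=
    (cpt CD (r + 1) ×ˢ (univ.pi fun _ => CD)) ×ˢ cpt CD (r + 1) with hQ
  have hQc : IsCompact Q := ((isCompact_cpt hCD _).prod (isCompact_univ_pi fun _ => hCD)).prod (isCompact_cpt hCD _)
  set K2 : Set (Fin (r + 1) → R) := (fun p : ((Matrix (Fin (r + 1)) (Fin (r + 1)) R × (Fin (r + 1) → R)) ×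
    Matrix (Fin (r + 1)) (Fin (r + 1)) R) × ((Fin (r + 1) → R) × (Fin (r + 1) → R)) =>
      p.1.2 *ᵥ p.2.1 - A *ᵥ p.1.1.2 + p.2.2) '' (Q ×ˢ ((col '' C) ×ˢ (univ.pi fun _ => CD))) with hK2
  have hK2c : IsCompact K2 := by
    refine (hQc.prod ((hC.image continuous_col).prod (isCompact_univ_pi fun _ => hCD))).image ?_
    fun_prop
  have hfin := Lat_finite hP hK2c
  set T : Finset (Lat O (r + 1)) := (hfin.preimage (f := (Subtype.val : Lat O (r + 1) → (Fin (r + 1) → R)))
    Subtype.val_injective.injOn).toFinset with hT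
  have hTm : ∀ β : Lat O (r + 1), β ∉ T → β.1 ∉ K2 := by
    intro β hβ hmem
    apply hβ
    rw [hT, Set.Finite.mem_toFinset]
    exact ⟨hmem, β.2⟩
  have hQae : ∀ᵐ z ∂(ZZ m D r), (z.1.1 ∈ cpt CD (r + 1) ∧ IsU z.1.1) ∧ z.1.2 ∈ (univ.pi fun _ => CD) ∧
      (z.2 ∈ cpt CD (r + 1) ∧ IsU z.2) := by
    have a1 := ae_cpt hCD hae (r + 1)
    have a2 : ∀ᵐ b ∂(Measure.pi fun _ : Fin (r + 1) => m.restrict D), b ∈ univ.pi fun _ : Fin (r + 1) => CD := by
      have : ∀ i : Fin (r + 1), ∀ᵐ b ∂(Measure.pi fun _ : Fin (r + 1) => m.restrict D), b i ∈ CD := fun i =>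
        (Measure.quasiMeasurePreserving_eval (μ := fun _ : Fin (r + 1) => m.restrict D) i).ae hae
      filter_upwards [ae_all_iff.2 this] with b hb i _ using hb i
    have b1 := (Measure.quasiMeasurePreserving_fst (μ := (uMeas (m.restrict D) (r + 1)).prod
      (Measure.pi fun _ : Fin (r + 1) => m.restrict D)) (ν := uMeas (m.restrict D) (r + 1))).ae
      ((Measure.quasiMeasurePreserving_fst (μ := uMeas (m.restrict D) (r + 1))
        (ν := Measure.pi fun _ : Fin (r + 1) => m.restrict D)).ae a1)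
    have b2 := (Measure.quasiMeasurePreserving_fst (μ := (uMeas (m.restrict D) (r + 1)).prod
      (Measure.pi fun _ : Fin (r + 1) => m.restrict D)) (ν := uMeas (m.restrict D) (r + 1))).ae
      ((Measure.quasiMeasurePreserving_snd (μ := uMeas (m.restrict D) (r + 1))
        (ν := Measure.pi fun _ : Fin (r + 1) => m.restrict D)).ae a2)
    have b3 := (Measure.quasiMeasurePreserving_snd (μ := (uMeas (m.restrict D) (r + 1)).prod
      (Measure.pi fun _ : Fin (r + 1) => m.restrict D)) (ν := uMeas (m.restrict D) (r + 1))).ae a1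
    filter_upwards [b1, b2, b3] with z h1 h2 h3 using ⟨h1, h2, h3⟩
  have hEz : ∀ z : (Matrix (Fin (r + 1)) (Fin (r + 1)) R × (Fin (r + 1) → R)) × Matrix (Fin (r + 1)) (Fin (r + 1)) R,
      ((z.1.1 ∈ cpt CD (r + 1) ∧ IsU z.1.1) ∧ z.1.2 ∈ (univ.pi fun _ => CD) ∧ (z.2 ∈ cpt CD (r + 1) ∧ IsU z.2)) →
      ∀ β : Lat O (r + 1), β ∉ T → EE m D χ μ k A z β.1 = 0 := by
    intro z hz β hβ
    unfold EE
    rw [← integral_zero (Fin (r + 1) → R) ℂ (μ := Measure.pi fun _ => m.restrict D)]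
    have a2 : ∀ᵐ b ∂(Measure.pi fun _ : Fin (r + 1) => m.restrict D), b ∈ univ.pi fun _ : Fin (r + 1) => CD := by
      have : ∀ i : Fin (r + 1), ∀ᵐ b ∂(Measure.pi fun _ : Fin (r + 1) => m.restrict D), b i ∈ CD := fun i =>
        (Measure.quasiMeasurePreserving_eval (μ := fun _ : Fin (r + 1) => m.restrict D) i).ae hae
      filter_upwards [ae_all_iff.2 this] with b hb i _ using hb i
    refine integral_congr_ae ?_
    filter_upwards [a2] with b' hb'
    show chr χ μ b' * k (ext (z.2.adjugate * A * z.1.1) (z.2.adjugate *ᵥ (A *ᵥ z.1.2 + β.1 - b'))) = 0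
    rw [h0, mul_zero]
    intro hmem
    refine hTm β hβ ⟨(z, (z.2.adjugate *ᵥ (A *ᵥ z.1.2 + β.1 - b'), b')), ⟨⟨⟨hz.1.1, hz.2.1⟩, hz.2.2.1⟩,
      ⟨_, hmem, col_ext _ _⟩, hb'⟩, ?_⟩
    show z.2 *ᵥ (z.2.adjugate *ᵥ (A *ᵥ z.1.2 + β.1 - b')) - A *ᵥ z.1.2 + b' = β.1
    rw [mulVec_mulVec, mul_adj_self (isU_det hz.2.2.2), one_mulVec]
    abel
  -- exchange
  have hJT : ∀ β : Lat O (r + 1), β ∉ T → JJ m D χ μ k (ext A β.1) = 0 := by
    intro β hβ
    rw [JJ_succ hP m hχ hk, ← integral_zero _ ℂ (μ := ZZ m D r)]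
    refine integral_congr_ae ?_
    filter_upwards [hQae] with z hz
    rw [hEz z hz β hβ, mul_zero]
  rw [tsum_eq_sum (fun β hβ => hJT β hβ), Finset.sum_congr rfl fun β _ => JJ_succ hP m hχ hk A β.1]
  have hWE : ∀ β : Fin (r + 1) → R, Integrable (fun z => WW χ μ z * EE m D χ μ k A z β) (ZZ m D r) := fun β =>
    integrable_bdd ((measurable_WW hχ).mul (measurable_EE m hχ hk A β)) (C := c * (Measure.pi fun _ : Fin (r + 1) => m.restrict D).real univ) fun z => by
      rw [norm_mul, norm_WW, one_mul]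
      exact norm_EE hP m hc A β z
  rw [← integral_finsetSum _ fun β _ => hWE β.1]
  have h1 : ∫ z, ∑ β ∈ T, WW χ μ z * EE m D χ μ k A z β.1 ∂(ZZ m D r) =
      ∫ z, WW χ μ z * (chr χ μ (A *ᵥ z.1.2) * red m χ μ k (z.2.adjugate * A * z.1.1)) ∂(ZZ m D r) := by
    refine integral_congr_ae ?_
    filter_upwards [hQae] with z hz
    rw [← Finset.mul_sum, ← EE_sum hP m hχ hd hk A hz.2.2.2, tsum_eq_sum (fun β hβ => hEz z hz β hβ)]
  rw [h1]
  -- separate the integral over `b`
  obtain ⟨c', hc'⟩ := (isK_red (m := m) hχ μ hk).bdd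
  have hred := (isK_red (m := m) hχ μ hk).meas
  set U1 := uMeas (m.restrict D) (r + 1) with hU1
  set V := Measure.pi fun _ : Fin (r + 1) => m.restrict D with hV
  have hm2 : Measurable fun z : (Matrix (Fin (r + 1)) (Fin (r + 1)) R × (Fin (r + 1) → R)) ×
      Matrix (Fin (r + 1)) (Fin (r + 1)) R => WW χ μ z * (chr χ μ (A *ᵥ z.1.2) * red m χ μ k (z.2.adjugate * A * z.1.1)) := by
    refine (measurable_WW hχ).mul (Measurable.mul ?_ (hred.comp (Continuous.measurable (by fun_prop))))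
    exact ((continuous_chr hχ μ).comp (by fun_prop)).measurable
  have hi2 : Integrable (fun z : (Matrix (Fin (r + 1)) (Fin (r + 1)) R × (Fin (r + 1) → R)) ×
      Matrix (Fin (r + 1)) (Fin (r + 1)) R => WW χ μ z * (chr χ μ (A *ᵥ z.1.2) * red m χ μ k (z.2.adjugate * A * z.1.1)))
      (ZZ m D r) := integrable_bdd hm2 (C := c') fun z => by
    rw [norm_mul, norm_WW, norm_mul, norm_chr, one_mul, one_mul]
    exact hc' _
  rw [integral_prod _ hi2, integral_prod _ hi2.integral_prod_left]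
  have h3 : ∀ u : Matrix (Fin (r + 1)) (Fin (r + 1)) R, ∀ b : Fin (r + 1) → R,
      ∫ u', WW χ μ ((u, b), u') * (chr χ μ (A *ᵥ b) * red m χ μ k (u'.adjugate * A * u)) ∂U1 =
      (conj (chr χ μ b) * chr χ μ (A *ᵥ b)) *
        ∫ u', gI χ μ (red m χ μ k) A (u, u') ∂U1 := by
    intro u b
    rw [← integral_const_mul]
    refine integral_congr_ae (Filter.Eventually.of_forall fun u' => ?_)
    show WW χ μ ((u, b), u') * (chr χ μ (A *ᵥ b) * red m χ μ k (u'.adjugate * A * u)) =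
      (conj (chr χ μ b) * chr χ μ (A *ᵥ b)) * gI χ μ (red m χ μ k) A (u, u')
    unfold WW gI
    dsimp only
    rw [map_mul]
    ring
  have h5 := orth hP m hd hA
  rw [Measure.restrict_pi_pi] at h5
  have h6 : ∫ u, ∫ b, ∫ u', WW χ μ ((u, b), u') * (chr χ μ (A *ᵥ b) * red m χ μ k (u'.adjugate * A * u)) ∂U1 ∂V ∂U1 =
      ∫ u, (∫ b, conj (chr χ μ b) * chr χ μ (A *ᵥ b) ∂V) * ∫ u', gI χ μ (red m χ μ k) A (u, u') ∂U1 ∂U1 := by
    refine integral_congr_ae (Filter.Eventually.of_forall fun u => ?_)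
    dsimp only
    rw [← integral_mul_const]
    refine integral_congr_ae (Filter.Eventually.of_forall fun b => ?_)
    dsimp only
    rw [h3]
  refine h6.trans ?_
  rw [integral_const_mul, hV, h5]
  rfl

end

end Pool.Agent.H496.R8
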