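import Mathlib
import Pool.Agent.H496.R8.Theta

/-! The induction over the columns. -/

set_option autoImplicit false
set_option linter.unusedSectionVars false
set_option linter.style.haveILetI false

namespace Pool.Agent.H496.R8

open MeasureTheory Matrix Set
open scoped ComplexConjugate ENNReal Pointwise Classical

variable {R : Type*} [CommRing R] [TopologicalSpace R] [IsTopologicalRing R] [MeasurableSpace R] [BorelSpace R]
  [SecondCountableTopology R] [T2Space R] {r : ℕ}

/-- Unitriangular with entries in `O`. -/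
def IsUO (O : Subring R) (u : Matrix (Fin r) (Fin r) R) : Prop := IsU u ∧ ∀ i j, u i j ∈ O

/-- A set of matrices over `O` which contains `1` and is closed under multiplication by unitriangular matrices. -/
structure IsCl (O : Subring R) (A : Set (Matrix (Fin r) (Fin r) R)) : Prop where
  ent : ∀ a ∈ A, ∀ i j, a i j ∈ O
  one : (1 : Matrix (Fin r) (Fin r) R) ∈ A
  mul : ∀ u, IsUO O u → ∀ a ∈ A, u * a ∈ A

theorem isUO_ext {O : Subring R} {u : Matrix (Fin r) (Fin r) R} (hu : IsUO O u) {b : Fin r → R}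
    (hb : ∀ i, b i ∈ O) : IsUO O (ext u b) := by
  refine ⟨isU_ext hu.1 b, fun i j => ?_⟩
  refine Fin.lastCases ?_ (fun i => ?_) i <;> refine Fin.lastCases ?_ (fun j => ?_) j
  · rw [ext_ll]; exact O.one_mem
  · rw [ext_lc]; exact O.zero_mem
  · rw [ext_cl]; exact hb i
  · rw [ext_cc]; exact hu.2 i j

theorem isUO_one {O : Subring R} : IsUO O (1 : Matrix (Fin r) (Fin r) R) := by
  refine ⟨isU_one, fun i j => ?_⟩
  rw [Matrix.one_apply]
  split_ifs
  · exact O.one_mem
  · exact O.zero_mem

/-- The matrices of the upper left block. -/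
def low (A : Set (Matrix (Fin (r + 1)) (Fin (r + 1)) R)) : Set (Matrix (Fin r) (Fin r) R) := {a | ext a 0 ∈ A}

theorem isCl_low {O : Subring R} {A : Set (Matrix (Fin (r + 1)) (Fin (r + 1)) R)} (h : IsCl O A) : IsCl O (low A) := by
  refine ⟨fun a ha i j => ?_, ?_, fun u hu a ha => ?_⟩
  · have := h.ent _ ha i.castSucc j.castSucc
    rwa [ext_cc] at this
  · show ext 1 0 ∈ A
    rw [ext_one]; exact h.one
  · show ext (u * a) 0 ∈ A
    have := h.mul _ (isUO_ext hu (b := 0) fun i => O.zero_mem) _ ha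
    rw [ext_mul, mulVec_zero, zero_add] at this
    exact this

theorem low_mem {O : Subring R} {A : Set (Matrix (Fin (r + 1)) (Fin (r + 1)) R)} (h : IsCl O A)
    {a : Matrix (Fin r) (Fin r) R} (ha : a ∈ low A) {b : Fin r → R} (hb : ∀ i, b i ∈ O) : ext a b ∈ A := by
  have := h.mul _ (isUO_ext isUO_one hb) _ ha
  rw [ext_mul, mulVec_zero, zero_add, one_mul] at this
  exact this

theorem mem_low {O : Subring R} {A : Set (Matrix (Fin (r + 1)) (Fin (r + 1)) R)} (h : IsCl O A)
    {M : Matrix (Fin (r + 1)) (Fin (r + 1)) R} (hM : M ∈ A) (h1 : ∀ j : Fin r, M (Fin.last r) j.castSucc = 0)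
    (h2 : M (Fin.last r) (Fin.last r) = 1) : top M ∈ low A := by
  show ext (top M) 0 ∈ A
  have h3 := h.mul (ext 1 (-(col M))) (isUO_ext isUO_one (fun i => O.neg_mem (h.ent _ hM _ _))) _ hM
  have h4 : ext 1 (-(col M)) * M = ext (top M) 0 := by
    conv_lhs => rw [← ext_top_col h1 h2]
    rw [ext_mul, one_mulVec, one_mul, col_ext, add_neg_cancel]
  rwa [h4] at h3

theorem mat_finite {O : Subring R} {D : Set R} (h : IsPair O D) {K : Set (Matrix (Fin r) (Fin r) R)}
    (hK : IsCompact K) : {M | M ∈ K ∧ ∀ i j, M i j ∈ O}.Finite := by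
  have h1 : {M | M ∈ K ∧ ∀ i j, M i j ∈ O} ⊆
      (univ.pi fun i : Fin r => univ.pi fun j : Fin r => ((fun M : Matrix (Fin r) (Fin r) R => M i j) '' K) ∩ O) := by
    rintro M ⟨hM, hO⟩ i _ j _
    exact ⟨⟨M, hM, rfl⟩, hO i j⟩
  refine Set.Finite.subset ?_ h1
  exact Set.Finite.pi fun i => Set.Finite.pi fun j => h.discrete _ (hK.image (continuous_id.matrix_elem i j))

theorem JJ_support {O : Subring R} {D : Set R} (h : IsPair O D) (m : Measure R) [SigmaFinite m]
    [IsFiniteMeasureOnCompacts m] [m.IsAddLeftInvariant] [m.IsNegInvariant] (χ : AddChar R Circle) (μ : ℕ → R) {k : Matrix (Fin r) (Fin r) R → ℂ}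
    (hk : IsK k) : {M | (∀ i j, M i j ∈ O) ∧ JJ m D χ μ k M ≠ 0}.Finite := by
  obtain ⟨C, hC, h0⟩ := hk.cpt
  obtain ⟨CD, hCD, hDC⟩ := h.bdd
  haveI := fin_restrict h m
  have hae : ∀ᵐ x ∂(m.restrict D), x ∈ CD := by
    filter_upwards [ae_restrict_mem h.meas] with x hx using hDC hx
  set K : Set (Matrix (Fin r) (Fin r) R) := (fun p : Matrix (Fin r) (Fin r) R × Matrix (Fin r) (Fin r) R ×
    Matrix (Fin r) (Fin r) R => p.1 * p.2.1 * p.2.2.adjugate) '' (cpt CD r ×ˢ (C ×ˢ cpt CD r)) with hKdef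
  have hK : IsCompact K := ((isCompact_cpt hCD r).prod (hC.prod (isCompact_cpt hCD r))).image (by fun_prop)
  refine (mat_finite h hK).subset ?_
  rintro M ⟨hM, hJ⟩
  refine ⟨?_, hM⟩
  by_contra hcon
  apply hJ
  unfold JJ
  have hz : ∀ᵐ u ∂(uMeas (m.restrict D) r), ∫ u', gI χ μ k M (u, u') ∂(uMeas (m.restrict D) r) = 0 := by
    filter_upwards [ae_cpt hCD hae r] with u hu
    rw [← integral_zero _ ℂ (μ := uMeas (m.restrict D) r)]
    refine integral_congr_ae ?_
    filter_upwards [ae_cpt hCD hae r] with u' hu'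
    unfold gI
    dsimp only
    rw [h0, mul_zero]
    intro hmem
    apply hcon
    refine ⟨(u', _, u), ⟨hu'.1, hmem, hu.1⟩, ?_⟩
    show u' * (u'.adjugate * M * u) * u.adjugate = M
    rw [mul_assoc u'.adjugate, ← mul_assoc u', mul_adj_self (isU_det hu'.2), one_mul, mul_assoc,
      mul_adj_self (isU_det hu.2), mul_one]
  rw [integral_congr_ae hz, integral_zero]

theorem uMeas_one (ν : Measure R) [SigmaFinite ν] : uMeas ν 1 = Measure.dirac 1 := by
  show ((Measure.dirac 1).prod (Measure.pi fun _ : Fin 0 => ν)).map (fun p => ext p.1 p.2) = _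
  rw [Measure.pi_of_empty, Measure.dirac_prod_dirac]
  refine (Measure.map_dirac' measurable_ext _).trans ?_
  congr 1
  rw [← ext_one]
  congr 1
  exact Subsingleton.elim _ _

theorem uMeas_univ {ν : Measure R} [SigmaFinite ν] [IsFiniteMeasure ν] :
    (uMeas ν (r + 1)).real univ = (uMeas ν r).real univ * (ν univ).toReal ^ r := by
  unfold uMeas
  rw [Measure.real, Measure.map_apply measurable_ext MeasurableSet.univ, preimage_univ, ← univ_prod_univ,
    Measure.prod_prod, ENNReal.toReal_mul, Measure.real, Measure.pi_univ, ENNReal.toReal_prod, Finset.prod_const,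
    Finset.card_univ, Fintype.card_fin]
  congr 1
  cases r with
  | zero => rfl
  | succ r => rfl

/-- The sum over the mirabolic subgroup. -/
theorem theta {O : Subring R} {D : Set R} (hP : IsPair O D) (m : Measure R) [SigmaFinite m]
    [IsFiniteMeasureOnCompacts m] [m.IsAddLeftInvariant] [m.IsNegInvariant] {χ : AddChar R Circle}
    (hχ : Continuous χ) {μ : ℕ → R} : ∀ (r : ℕ), (∀ i < r, IsDual O χ (μ i)) →
    ∀ {k : Matrix (Fin (r + 1)) (Fin (r + 1)) R → ℂ}, IsK k → ∀ {A : Set (Matrix (Fin r) (Fin r) R)}, IsCl O A →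
    ∑' a : A, ∑' β : Lat O r, JJ m D χ μ k (ext a.1 β.1) =
      (uMeas (m.restrict D) (r + 1)).real univ * ∫ u, conj (psi χ μ u) * k u ∂(uMeas m (r + 1)) := by
  haveI := fin_restrict hP m
  intro r
  induction r with
  | zero =>
    intro _ k hk A hA
    haveI : Unique A := ⟨⟨⟨1, hA.one⟩⟩, fun a => Subtype.ext (Subsingleton.elim _ _)⟩
    haveI : Unique (Lat O 0) := ⟨⟨0⟩, fun a => Subtype.ext (Subsingleton.elim _ _)⟩
    have e1 : ∑' a : A, ∑' β : Lat O 0, JJ m D χ μ k (ext a.1 β.1) = JJ m D χ μ k 1 := by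
      have h1 : ∀ (a : A) (β : Lat O 0), JJ m D χ μ k (ext a.1 β.1) = JJ m D χ μ k 1 := by
        intro a β
        congr 1
        rw [← ext_one]
        congr 1
        · exact Subsingleton.elim _ _
        · exact Subsingleton.elim _ _
      simp_rw [h1]
      rw [tsum_fintype, tsum_fintype]
      simp
    rw [e1]
    unfold JJ
    rw [uMeas_one, uMeas_one, integral_dirac, integral_dirac, integral_dirac]
    unfold gI
    simp only [psi_small]
    simp
  | succ r ih =>
    intro hd k hk A hA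
    haveI := Lat_countable hP (r + 1)
    have hstep : ∀ a : A, ∑' β : Lat O (r + 1), JJ m D χ μ k (ext a.1 β.1) =
        (((m D).toReal ^ (r + 1) : ℝ) : ℂ) *
        (if (∀ j : Fin r, a.1 (Fin.last r) j.castSucc = 0) ∧ a.1 (Fin.last r) (Fin.last r) = 1 then
          JJ m D χ μ (red m χ μ k) a.1 else 0) := by
      intro a
      rw [one_step hP m hχ (hd r (Nat.lt_succ_self r)) hk (hA.ent _ a.2)]
      split_ifs with h
      · rfl
      · rw [zero_mul, mul_zero]
    rw [tsum_congr hstep, tsum_mul_left]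
    have hkr := isK_red (m := m) hχ μ hk
    -- the injection
    set ι : (low A) × (Lat O r) → A := fun p => ⟨ext p.1.1 p.2.1, low_mem hA p.1.2 (mem_Lat.1 p.2.2)⟩ with hι
    have hinj : Function.Injective ι := by
      rintro ⟨a, b⟩ ⟨a', b'⟩ h
      have := ext_inj (congrArg Subtype.val h)
      exact Prod.ext (Subtype.ext this.1) (Subtype.ext this.2)
    set g : A → ℂ := fun a => if (∀ j : Fin r, a.1 (Fin.last r) j.castSucc = 0) ∧ a.1 (Fin.last r) (Fin.last r) = 1 then
          JJ m D χ μ (red m χ μ k) a.1 else 0 with hg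
    have hsupp : Function.support g ⊆ range ι := by
      intro a ha
      have hc : (∀ j : Fin r, a.1 (Fin.last r) j.castSucc = 0) ∧ a.1 (Fin.last r) (Fin.last r) = 1 := by
        by_contra hcon
        exact ha (if_neg hcon)
      refine ⟨(⟨top a.1, mem_low hA a.2 hc.1 hc.2⟩, ⟨col a.1, mem_Lat.2 fun i => hA.ent _ a.2 _ _⟩), ?_⟩
      exact Subtype.ext (ext_top_col hc.1 hc.2)
    have h1 : ∑' a, g a = ∑' p, g (ι p) := (hinj.tsum_eq hsupp).symm
    have h2 : ∀ p : (low A) × (Lat O r), g (ι p) = JJ m D χ μ (red m χ μ k) (ext p.1.1 p.2.1) := by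
      intro p
      rw [hg]
      exact if_pos ⟨fun j => ext_lc _ _ j, ext_ll _ _⟩
    have h3 : Summable fun p : (low A) × (Lat O r) => JJ m D χ μ (red m χ μ k) (ext p.1.1 p.2.1) := by
      refine summable_of_hasFiniteSupport ?_
      have h4 := JJ_support hP m χ μ hkr
      refine Set.Finite.subset (h4.preimage (f := fun p : (low A) × (Lat O r) => ext p.1.1 p.2.1) ?_) ?_
      · rintro ⟨a, b⟩ _ ⟨a', b'⟩ _ h
        have := ext_inj h
        exact Prod.ext (Subtype.ext this.1) (Subtype.ext this.2)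
      · intro p hp
        exact ⟨fun i j => hA.ent _ (low_mem hA p.1.2 (mem_Lat.1 p.2.2)) i j, hp⟩
    rw [h1, tsum_congr h2, h3.tsum_prod, ih (fun i hi => hd i (Nat.lt_succ_of_lt hi)) hkr (isCl_low hA)]
    have h5 : ∫ u, conj (psi χ μ u) * k u ∂(uMeas m (r + 1 + 1)) =
        ∫ u, conj (psi χ μ u) * red m χ μ k u ∂(uMeas m (r + 1)) := by
      obtain ⟨c, hc⟩ := hk.bdd
      obtain ⟨C, hC, h0⟩ := hk.cpt
      have hm1 : Measurable fun u : Matrix (Fin (r + 2)) (Fin (r + 2)) R => conj (psi χ μ u) * k u :=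
        ((Complex.continuous_conj.comp (continuous_psi hχ μ)).measurable).mul hk.meas
      rw [integral_succ m hm1 (integrable_cpt hm1 (c := c) (fun x => by
        rw [norm_conj_mul _ _ (norm_psi _ _ _)]; exact hc x) hC fun x hx => by rw [h0 x hx, mul_zero])]
      refine integral_congr_ae (Filter.Eventually.of_forall fun u => ?_)
      dsimp only
      unfold red
      rw [← integral_const_mul]
      refine integral_congr_ae (Filter.Eventually.of_forall fun s => ?_)
      dsimp only
      rw [psi_ext, map_mul, mul_assoc]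
    rw [h5, uMeas_univ (r := r + 1), Measure.restrict_apply_univ]
    push_cast
    ring

end Pool.Agent.H496.R8
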