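import Mathlib
import Pool.Agent.H496.R8.Bes
import Pool.Agent.H496.R8.Theta2

/-! The Bessel inequality for Whittaker coefficients on `GL_{n+1}`, level in the last row. -/

set_option autoImplicit false
set_option linter.unusedSectionVars false
set_option linter.style.haveILetI false

namespace Pool.Agent.H496.R8

open MeasureTheory Matrix Set
open scoped ComplexConjugate ENNReal Pointwise Classical MatrixGroups

variable {R : Type*} [CommRing R] [TopologicalSpace R] [IsTopologicalRing R] [MeasurableSpace R] [BorelSpace R]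
  [SecondCountableTopology R] [T2Space R] {n : ℕ}

variable {H : Type*} [Group H] [TopologicalSpace H] [IsTopologicalGroup H] [SecondCountableTopology H] [T2Space H]

/-- `H` is a closed group of matrices with the topology of the entries, which contains the unitriangular matrices. -/
structure IsMatGroup (E : H →* Matrix (Fin n) (Fin n) R) : Prop where
  emb : Topology.IsClosedEmbedding E
  uni : ∀ M : Matrix (Fin n) (Fin n) R, IsU M → ∃ x, E x = M

/-- A matrix in the range of `E` as an element of `H`, and `1` for the other matrices. -/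
noncomputable def sl (E : H →* Matrix (Fin n) (Fin n) R) (M : Matrix (Fin n) (Fin n) R) : H :=
  if h : ∃ x, E x = M then h.choose else 1

variable {E : H →* Matrix (Fin n) (Fin n) R}

theorem sl_val {M : Matrix (Fin n) (Fin n) R} (h : M ∈ range E) : E (sl E M) = M := by
  have h' : ∃ x, E x = M := h
  unfold sl
  rw [dif_pos h']
  exact h'.choose_spec

theorem sl_neg {M : Matrix (Fin n) (Fin n) R} (h : ¬ M ∈ range E) : sl E M = 1 := by
  have h' : ¬ ∃ x, E x = M := h
  unfold sl
  rw [dif_neg h']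

theorem sl_coe (hE : IsMatGroup E) (x : H) : sl E (E x) = x := hE.emb.injective (sl_val ⟨x, rfl⟩)

theorem adj_isU {M : Matrix (Fin n) (Fin n) R} (h : IsU M) : IsU M.adjugate := by
  induction n with
  | zero => exact ⟨fun i => i.elim0, fun i => i.elim0⟩
  | succ r ih =>
    rw [← isU_eq h, adj_ext (isU_det (isU_top h))]
    exact isU_ext (ih (isU_top h)) _

theorem sl_inv (hE : IsMatGroup E) {M : Matrix (Fin n) (Fin n) R} (h : IsU M) : (sl E M)⁻¹ = sl E M.adjugate := by
  rw [inv_eq_iff_mul_eq_one]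
  apply hE.emb.injective
  rw [map_mul, sl_val (hE.uni _ h), sl_val (hE.uni _ (adj_isU h)), mul_adj_self (isU_det h), map_one]

theorem sl_mul (hE : IsMatGroup E) {M M' : Matrix (Fin n) (Fin n) R} (h : M ∈ range E) (h' : M' ∈ range E) :
    sl E (M * M') = sl E M * sl E M' := by
  obtain ⟨x, rfl⟩ := h
  obtain ⟨y, rfl⟩ := h'
  rw [← map_mul, sl_coe hE, sl_coe hE, sl_coe hE]

variable [MeasurableSpace H] [BorelSpace H]

theorem measurableSet_range (hE : IsMatGroup E) : MeasurableSet {M : Matrix (Fin n) (Fin n) R | M ∈ range E} :=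
  hE.emb.isClosed_range.measurableSet

theorem measurable_sl (hE : IsMatGroup E) : Measurable (sl E) := by
  intro s hs
  have hval : MeasurableEmbedding E := hE.emb.measurableEmbedding
  have : sl E ⁻¹' s = (E '' s) ∪
      ({M : Matrix (Fin n) (Fin n) R | M ∈ range E}ᶜ ∩ {_M | (1 : H) ∈ s}) := by
    ext M
    constructor
    · intro hM
      by_cases h : M ∈ range E
      · left
        exact ⟨sl E M, hM, sl_val h⟩
      · right
        refine ⟨h, ?_⟩
        have h2 : sl E M ∈ s := hM
        rw [sl_neg h] at h2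
        exact h2
    · rintro (⟨x, hx, rfl⟩ | ⟨h, h2⟩)
      · have h3 : sl E (E x) ∈ s := by rw [sl_coe hE]; exact hx
        exact h3
      · have h3 : sl E M ∈ s := by rw [sl_neg h]; exact h2
        exact h3
  rw [this]
  exact ((hval.measurableSet_image).2 hs).union ((measurableSet_range hE).compl.inter (MeasurableSet.const _))

/-- The autocorrelation of `κ`. -/
noncomputable def corr (vol : Measure H) (κ : H → ℂ) (h : H) : ℂ := ∫ y, conj (κ y) * κ (h * y) ∂vol

/-- The conjugate of the autocorrelation, as a function of matrices. -/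
noncomputable def kk (E : H →* Matrix (Fin n) (Fin n) R) (vol : Measure H) (κ : H → ℂ)
    (g : H) (M : Matrix (Fin n) (Fin n) R) : ℂ :=
  if M ∈ range E then corr vol κ (g⁻¹ * sl E M * g) else 0

variable {vol : Measure H} [SigmaFinite vol] [IsFiniteMeasureOnCompacts vol]
  [vol.IsMulLeftInvariant] {κ : H → ℂ} {g : H}

theorem kk_ne {C : Set H} (h0 : ∀ x ∉ C, κ x = 0) {M : Matrix (Fin n) (Fin n) R}
    (h : kk E vol κ g M ≠ 0) : M ∈ range E ∧ ∃ b ∈ C, ∃ b' ∈ C, sl E M = g * (b' * b⁻¹) * g⁻¹ := by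
  by_cases hd : M ∈ range E
  · refine ⟨hd, ?_⟩
    unfold kk corr at h
    rw [if_pos hd] at h
    by_contra hcon
    apply h
    rw [← integral_zero _ ℂ (μ := vol)]
    refine integral_congr_ae (Filter.Eventually.of_forall fun y => ?_)
    dsimp only
    by_cases hy : y ∈ C
    · by_cases hy' : g⁻¹ * sl E M * g * y ∈ C
      · exact absurd ⟨y, hy, _, hy', by group⟩ hcon
      · rw [h0 _ hy', mul_zero]
    · rw [h0 _ hy, map_zero, zero_mul]
  · exact absurd (if_neg hd) h

theorem isK_kk (hE : IsMatGroup E) (hκ : IsK κ) : IsK (kk E vol κ g) := by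
  obtain ⟨c, hc⟩ := hκ.bdd
  obtain ⟨C, hC, h0⟩ := hκ.cpt
  refine ⟨?_, ⟨|c| * |c| * vol.real C, fun M => ?_⟩,
    ⟨E '' ((fun p : H × H => g * (p.2 * p.1⁻¹) * g⁻¹) '' (C ×ˢ C)), ?_, fun M hM => ?_⟩⟩
  · unfold kk
    refine Measurable.ite (measurableSet_range hE) ?_ measurable_const
    unfold corr
    refine meas_int (f := fun p : Matrix (Fin n) (Fin n) R × H =>
      conj (κ p.2) * κ (g⁻¹ * sl E p.1 * g * p.2)) ?_
    refine Measurable.mul (Complex.continuous_conj.measurable.comp (hκ.meas.comp measurable_snd)) (hκ.meas.comp ?_)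
    exact (((measurable_const.mul ((measurable_sl hE).comp measurable_fst)).mul measurable_const).mul measurable_snd)
  · unfold kk
    split_ifs with h
    · unfold corr
      have e1 : ∫ y, conj (κ y) * κ (g⁻¹ * sl E M * g * y) ∂vol =
          ∫ y in C, conj (κ y) * κ (g⁻¹ * sl E M * g * y) ∂vol := by
        symm
        refine setIntegral_eq_integral_of_forall_compl_eq_zero fun y hy => ?_
        rw [h0 _ hy, map_zero, zero_mul]
      rw [e1]
      refine norm_setIntegral_le_of_norm_le_const hC.measure_lt_top fun y _ => ?_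
      rw [norm_mul, RCLike.norm_conj]
      exact mul_le_mul ((hc _).trans (le_abs_self c)) ((hc _).trans (le_abs_self c)) (norm_nonneg _) (abs_nonneg _)
    · rw [norm_zero]
      positivity
  · exact (((hC.prod hC).image (by fun_prop)).image hE.emb.continuous)
  · by_contra hne
    obtain ⟨hd, b, hb, b', hb', h1⟩ := kk_ne h0 hne
    exact hM ⟨sl E M, ⟨(b, b'), ⟨hb, hb'⟩, h1.symm⟩, sl_val hd⟩

/-- The integrand of `ph`. -/
noncomputable def aux (E : H →* Matrix (Fin n) (Fin n) R) (χ : AddChar R Circle) (μ : ℕ → R) (κ : H → ℂ)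
    (g : H) (u : Matrix (Fin n) (Fin n) R) (x : H) : ℂ :=
  psi χ μ u * κ (g⁻¹ * (sl E u)⁻¹ * x)

/-- The function whose Poincaré series is used. -/
noncomputable def ph (E : H →* Matrix (Fin n) (Fin n) R) (m : Measure R) (D : Set R) (χ : AddChar R Circle)
    (μ : ℕ → R) (κ : H → ℂ) (g : H) (x : H) : ℂ :=
  ∫ u, aux E χ μ κ g u x ∂(uMeas (m.restrict D) n)

/-- The Whittaker coefficient. -/
noncomputable def Wh (E : H →* Matrix (Fin n) (Fin n) R) (m : Measure R) (D : Set R) (χ : AddChar R Circle)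
    (μ : ℕ → R) (f : H → ℂ) (g : H) : ℂ :=
  ∫ u, psi χ μ u * f (sl E u * g) ∂(uMeas (m.restrict D) n)

/-- The unitriangular elements with entries in a compact set. -/
theorem isCompact_cptS (hE : IsMatGroup E) {CD : Set R} (hCD : IsCompact CD) : IsCompact {x : H | E x ∈ cpt CD n} :=
  hE.emb.isCompact_preimage (isCompact_cpt hCD n)

section
variable {O : Subring R} {D : Set R} (hP : IsPair O D) (m : Measure R) [SigmaFinite m] [IsFiniteMeasureOnCompacts m]
  [m.IsAddLeftInvariant] [m.IsNegInvariant] {χ : AddChar R Circle} (hχ : Continuous χ) (μ : ℕ → R)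

theorem measurable_Aux (hE : IsMatGroup E) (hκ : Measurable κ) : Measurable fun p : Matrix (Fin n) (Fin n) R × H =>
    κ (g⁻¹ * (sl E p.1)⁻¹ * p.2) :=
  hκ.comp ((measurable_const.mul (((measurable_sl hE).comp measurable_fst).inv)).mul measurable_snd)

include hχ in
theorem measurable_Aux2 (hE : IsMatGroup E) (hκ : Measurable κ) :
    Measurable fun p : Matrix (Fin n) (Fin n) R × H => aux E χ μ κ g p.1 p.2 := by
  unfold aux
  exact ((continuous_psi hχ μ).comp continuous_fst).measurable.mul (measurable_Aux hE hκ)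

theorem norm_aux {c : ℝ} (hc : ∀ x, ‖κ x‖ ≤ c) (u : Matrix (Fin n) (Fin n) R) (x : H) :
    ‖aux E χ μ κ g u x‖ ≤ |c| := by
  unfold aux
  rw [norm_mul, norm_psi, one_mul]
  exact (hc _).trans (le_abs_self c)

include hP in
/-- The compact support of `ph`. -/
theorem ph_cpt (hE : IsMatGroup E) (hκ : IsK κ) : ∃ K : Set H, IsCompact K ∧
    ∀ᵐ u ∂(uMeas (m.restrict D) n), ∀ x ∉ K, aux E χ μ κ g u x = 0 := by
  obtain ⟨C, hC, h0⟩ := hκ.cpt
  obtain ⟨CD, hCD, hDC⟩ := hP.bdd
  haveI := fin_restrict hP m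
  have hae : ∀ᵐ x ∂(m.restrict D), x ∈ CD := by
    filter_upwards [ae_restrict_mem hP.meas] with x hx using hDC hx
  refine ⟨(fun p : H × H => p.1 * (g * p.2)) '' ({x : H | E x ∈ cpt CD n} ×ˢ C),
    ((isCompact_cptS hE hCD).prod hC).image (by fun_prop), ?_⟩
  filter_upwards [ae_cpt hCD hae n] with u hu x hx
  unfold aux
  rw [h0, mul_zero]
  intro hmem
  apply hx
  refine ⟨(sl E u, g⁻¹ * (sl E u)⁻¹ * x), ⟨?_, hmem⟩, by group⟩
  show E (sl E u) ∈ cpt CD n
  rw [sl_val (hE.uni _ hu.2)]
  exact hu.1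

include hP hχ in
theorem isK_ph (hE : IsMatGroup E) (hκ : IsK κ) : IsK (ph E m D χ μ κ g) := by
  haveI := fin_restrict hP m
  obtain ⟨c, hc⟩ := hκ.bdd
  obtain ⟨K, hK, hK0⟩ := ph_cpt (g := g) (χ := χ) hP m μ hE hκ
  refine ⟨?_, ⟨|c| * (uMeas (m.restrict D) n).real univ, fun x => ?_⟩, ⟨K, hK, fun x hx => ?_⟩⟩
  · have h1 : Measurable fun p : H × Matrix (Fin n) (Fin n) R => aux E χ μ κ g p.2 p.1 :=
      Measurable.comp (g := fun p : Matrix (Fin n) (Fin n) R × H => aux E χ μ κ g p.1 p.2)
        (f := fun q : H × Matrix (Fin n) (Fin n) R => (q.2, q.1)) (measurable_Aux2 hχ μ hE hκ.meas)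
        (measurable_snd.prodMk measurable_fst)
    exact meas_int h1
  · exact norm_integral_le_of_norm_le_const (Filter.Eventually.of_forall fun u => norm_aux μ hc u x)
  · unfold ph
    rw [← integral_zero _ ℂ (μ := uMeas (m.restrict D) n)]
    refine integral_congr_ae ?_
    filter_upwards [hK0] with u hu using hu x hx

/-- Compactly supported bounded functions are integrable. -/
theorem IsK.integrable {φ : H → ℂ} (hφ : IsK φ) : Integrable φ vol := by
  obtain ⟨c, hc⟩ := hφ.bdd
  obtain ⟨K, hK, h0⟩ := hφ.cpt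
  have h1 : IntegrableOn φ K vol := by
    haveI : IsFiniteMeasure (vol.restrict K) := ⟨by rw [Measure.restrict_apply_univ]; exact hK.measure_lt_top⟩
    exact integrable_bdd hφ.meas hc
  rw [← integrableOn_univ]
  exact h1.of_forall_sdiff_eq_zero MeasurableSet.univ fun x hx => h0 x hx.2

theorem IsK.mul_cont {φ f : H → ℂ} (hφ : IsK φ) (hf : Continuous f) : IsK fun x => φ x * f x := by
  obtain ⟨c, hc⟩ := hφ.bdd
  obtain ⟨K, hK, h0⟩ := hφ.cpt
  obtain ⟨c', hc'⟩ := hK.exists_bound_of_continuousOn hf.continuousOn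
  refine ⟨hφ.meas.mul hf.measurable, ⟨|c| * |c'|, fun x => ?_⟩, ⟨K, hK, fun x hx => by rw [h0 x hx, zero_mul]⟩⟩
  by_cases hx : x ∈ K
  · rw [norm_mul]
    exact mul_le_mul ((hc x).trans (le_abs_self c)) ((hc' x hx).trans (le_abs_self c')) (norm_nonneg _) (abs_nonneg _)
  · rw [h0 x hx, zero_mul, norm_zero]
    positivity

theorem IsK.memLp {φ : H → ℂ} (hφ : IsK φ) : MemLp φ 2 vol := by
  rw [memLp_two_iff_integrable_sq_norm hφ.meas.aestronglyMeasurable]
  obtain ⟨c, hc⟩ := hφ.bdd
  obtain ⟨K, hK, h0⟩ := hφ.cpt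
  have h1 : IsK fun x => ((‖φ x‖ ^ 2 : ℝ) : ℂ) := by
    refine ⟨Complex.measurable_ofReal.comp ((hφ.meas.norm).pow_const 2), ⟨|c| ^ 2, fun x => ?_⟩,
      ⟨K, hK, fun x hx => by rw [h0 x hx]; simp⟩⟩
    rw [Complex.norm_real, norm_pow, norm_norm]
    exact pow_le_pow_left₀ (norm_nonneg _) ((hc x).trans (le_abs_self c)) 2
  have h2 := (h1.integrable (vol := vol)).re
  exact h2.congr (Filter.Eventually.of_forall fun x => Complex.ofReal_re _)

include hP hχ in
/-- The coefficient of `f`. -/
theorem coef (hE : IsMatGroup E) (hκ : IsK κ) {f : H → ℂ} (hf : Continuous f) {Λ : ℂ}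
    (hΛ : ∀ x, ∫ y, f (x * y) * κ y ∂vol = Λ * f x) :
    ∫ x, ph E m D χ μ κ g x * f x ∂vol = Λ * Wh E m D χ μ f g := by
  haveI := fin_restrict hP m
  obtain ⟨c, hc⟩ := hκ.bdd
  obtain ⟨K, hK, hK0⟩ := ph_cpt (g := g) (χ := χ) hP m μ hE hκ
  set U := uMeas (m.restrict D) n with hU
  have hm : Measurable fun p : H × Matrix (Fin n) (Fin n) R => aux E χ μ κ g p.2 p.1 * f p.1 :=
    ((measurable_Aux2 hχ μ hE hκ.meas).comp measurable_swap).mul (hf.measurable.comp measurable_fst)
  have hint : Integrable (fun p : H × Matrix (Fin n) (Fin n) R =>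
      aux E χ μ κ g p.2 p.1 * f p.1) (vol.prod U) := by
    have hKf : IsK fun x => K.indicator (fun _ => ((|c| : ℝ) : ℂ)) x * f x := by
      refine IsK.mul_cont ⟨measurable_const.indicator hK.isClosed.measurableSet, ⟨|c|, fun x => ?_⟩,
        ⟨K, hK, fun x hx => indicator_of_notMem hx _⟩⟩ hf
      by_cases hx : x ∈ K
      · rw [indicator_of_mem hx, Complex.norm_real, Real.norm_eq_abs, abs_abs]
      · rw [indicator_of_notMem hx, norm_zero]; positivity
    have h1 : Integrable (fun p : H × Matrix (Fin n) (Fin n) R =>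
        K.indicator (fun _ => ((|c| : ℝ) : ℂ)) p.1 * f p.1) (vol.prod U) := (hKf.integrable).comp_fst U
    refine h1.mono hm.aestronglyMeasurable ?_
    have h2 := (Measure.quasiMeasurePreserving_snd (μ := vol) (ν := U)).ae hK0
    filter_upwards [h2] with p hp
    by_cases hx : p.1 ∈ K
    · rw [indicator_of_mem hx, norm_mul, norm_mul, Complex.norm_real, Real.norm_eq_abs, abs_abs]
      exact mul_le_mul_of_nonneg_right (norm_aux μ hc _ _) (norm_nonneg _)
    · rw [hp _ hx, zero_mul, norm_zero]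
      positivity
  have e1 : ∫ x, ph E m D χ μ κ g x * f x ∂vol = ∫ x, ∫ u, aux E χ μ κ g u x * f x ∂U ∂vol := by
    refine integral_congr_ae (Filter.Eventually.of_forall fun x => ?_)
    dsimp only
    unfold ph
    rw [← integral_mul_const]
  rw [e1, integral_integral_swap hint, Wh, ← integral_const_mul]
  refine integral_congr_ae (Filter.Eventually.of_forall fun u => ?_)
  dsimp only
  have e2 := integral_mul_left_eq_self (μ := vol) (fun x => aux E χ μ κ g u x * f x) (sl E u * g)
  rw [← e2]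
  have e3 : ∀ y, aux E χ μ κ g u (sl E u * g * y) * f (sl E u * g * y) = psi χ μ u * (f (sl E u * g * y) * κ y) := by
    intro y
    have : g⁻¹ * (sl E u)⁻¹ * (sl E u * g * y) = y := by group
    unfold aux
    rw [this]
    ring
  simp_rw [e3]
  rw [integral_const_mul, hΛ]
  ring

include hP hχ in
/-- The Gram matrix. -/
theorem gram (hE : IsMatGroup E) (hκ : IsK κ) (γ : H) :
    ∫ x, conj (ph E m D χ μ κ g x) * ph E m D χ μ κ g (γ * x) ∂vol = JJ m D χ μ (kk E vol κ g) (E γ) := by
  haveI := fin_restrict hP m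
  obtain ⟨c, hc⟩ := hκ.bdd
  obtain ⟨K, hK, hK0⟩ := ph_cpt (g := g) (χ := χ) hP m μ hE hκ
  set U := uMeas (m.restrict D) n with hU
  have ham : Measurable fun p : Matrix (Fin n) (Fin n) R × H => aux E χ μ κ g p.1 p.2 :=
    measurable_Aux2 hχ μ hE hκ.meas
  have hab : ∀ u x, ‖aux E χ μ κ g u x‖ ≤ |c| := norm_aux μ hc
  have e1 : ∀ x, conj (ph E m D χ μ κ g x) * ph E m D χ μ κ g (γ * x) =
      ∫ p : Matrix (Fin n) (Fin n) R × Matrix (Fin n) (Fin n) R, conj (aux E χ μ κ g p.1 x) *
        aux E χ μ κ g p.2 (γ * x) ∂(U.prod U) := by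
    intro x
    rw [integral_prod_mul (fun u => conj (aux E χ μ κ g u x)) (fun u => aux E χ μ κ g u (γ * x)), integral_conj]
    rfl
  have hm : Measurable fun q : H × (Matrix (Fin n) (Fin n) R × Matrix (Fin n) (Fin n) R) =>
      conj (aux E χ μ κ g q.2.1 q.1) * aux E χ μ κ g q.2.2 (γ * q.1) := by
    refine Measurable.mul (Complex.continuous_conj.measurable.comp
      (Measurable.comp (g := fun p : Matrix (Fin n) (Fin n) R × H => aux E χ μ κ g p.1 p.2)
        (f := fun q : H × (Matrix (Fin n) (Fin n) R × Matrix (Fin n) (Fin n) R) => (q.2.1, q.1)) ham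
        ((measurable_fst.comp measurable_snd).prodMk measurable_fst))) ?_
    exact Measurable.comp (g := fun p : Matrix (Fin n) (Fin n) R × H => aux E χ μ κ g p.1 p.2)
        (f := fun q : H × (Matrix (Fin n) (Fin n) R × Matrix (Fin n) (Fin n) R) => (q.2.2, γ * q.1)) ham
        ((measurable_snd.comp measurable_snd).prodMk (measurable_const.mul measurable_fst))
  have hint : Integrable (fun q : H × (Matrix (Fin n) (Fin n) R × Matrix (Fin n) (Fin n) R) =>
      conj (aux E χ μ κ g q.2.1 q.1) * aux E χ μ κ g q.2.2 (γ * q.1)) (vol.prod (U.prod U)) := by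
    have hKf : IsK fun x => K.indicator (fun _ => ((|c| * |c| : ℝ) : ℂ)) x := by
      refine ⟨measurable_const.indicator hK.isClosed.measurableSet, ⟨|c| * |c|, fun x => ?_⟩,
        ⟨K, hK, fun x hx => indicator_of_notMem hx _⟩⟩
      by_cases hx : x ∈ K
      · rw [indicator_of_mem hx, Complex.norm_real, Real.norm_of_nonneg (by positivity)]
      · rw [indicator_of_notMem hx, norm_zero]; positivity
    have h1 : Integrable (fun q : H × (Matrix (Fin n) (Fin n) R × Matrix (Fin n) (Fin n) R) =>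
        K.indicator (fun _ => ((|c| * |c| : ℝ) : ℂ)) q.1) (vol.prod (U.prod U)) := (hKf.integrable).comp_fst (U.prod U)
    refine h1.mono hm.aestronglyMeasurable ?_
    have h2 := (Measure.quasiMeasurePreserving_snd (μ := vol) (ν := U.prod U)).ae
      ((Measure.quasiMeasurePreserving_fst (μ := U) (ν := U)).ae hK0)
    filter_upwards [h2] with p hp
    by_cases hx : p.1 ∈ K
    · rw [indicator_of_mem hx, norm_mul, RCLike.norm_conj, Complex.norm_real, Real.norm_of_nonneg (by positivity)]
      exact mul_le_mul (hab _ _) (hab _ _) (norm_nonneg _) (abs_nonneg _)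
    · rw [hp _ hx, map_zero, zero_mul, norm_zero]
      positivity
  simp_rw [e1]
  rw [integral_integral_swap hint]
  have hint2 := hint.integral_prod_right
  rw [integral_prod _ hint2, JJ]
  refine integral_congr_ae ?_
  filter_upwards [ae_isU (ν := m.restrict D) n] with u hu
  refine integral_congr_ae ?_
  filter_upwards [ae_isU (ν := m.restrict D) n] with u' hu'
  show ∫ x, conj (aux E χ μ κ g u x) * aux E χ μ κ g u' (γ * x) ∂vol = gI χ μ (kk E vol κ g) (E γ) (u, u')
  have hdu := hE.uni _ hu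
  have hda := hE.uni _ (adj_isU hu')
  have hdM : u'.adjugate * E γ * u ∈ range E := by
    obtain ⟨x, hx⟩ := hdu
    obtain ⟨y, hy⟩ := hda
    exact ⟨y * γ * x, by rw [map_mul, map_mul, hx, hy]⟩
  have hslM : sl E (u'.adjugate * E γ * u) = (sl E u')⁻¹ * γ * sl E u := by
    obtain ⟨y, hy⟩ := hda
    rw [sl_mul hE ⟨y * γ, by rw [map_mul, hy]⟩ hdu, sl_mul hE ⟨y, hy⟩ ⟨γ, rfl⟩, sl_inv hE hu', sl_coe hE]
  unfold gI kk
  dsimp only
  rw [if_pos hdM, hslM, corr, ← integral_const_mul,
    ← integral_mul_left_eq_self (μ := vol) (fun x => conj (aux E χ μ κ g u x) * aux E χ μ κ g u' (γ * x)) (sl E u * g)]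
  refine integral_congr_ae (Filter.Eventually.of_forall fun y => ?_)
  dsimp only
  unfold aux
  rw [map_mul]
  have h1 : g⁻¹ * (sl E u)⁻¹ * (sl E u * g * y) = y := by group
  have h2 : g⁻¹ * (sl E u')⁻¹ * (γ * (sl E u * g * y)) = g⁻¹ * ((sl E u')⁻¹ * γ * sl E u) * g * y := by group
  rw [h1, h2]
  ring

end

end Pool.Agent.H496.R8
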