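import Mathlib
import Pool.Agent.H496.R8.Fin

/-! Level in the last row: the main inequality. -/

set_option autoImplicit false
set_option linter.unusedSectionVars false
set_option linter.style.haveILetI false

namespace Pool.Agent.H496.R8

open MeasureTheory Matrix Set
open scoped ComplexConjugate ENNReal Pointwise Classical

variable {R : Type*} [CommRing R] [TopologicalSpace R] [IsTopologicalRing R] [MeasurableSpace R] [BorelSpace R]
  [SecondCountableTopology R] [T2Space R] {n : ℕ}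
variable {H : Type*} [Group H] [TopologicalSpace H] [IsTopologicalGroup H] [SecondCountableTopology H] [T2Space H]
  [MeasurableSpace H] [BorelSpace H]
variable {E : H →* Matrix (Fin (n + 1)) (Fin (n + 1)) R}

/-- `Γ` consists of matrices over `O`, contains the unitriangular ones, and the entries of the last row are `0` or of
size at least `Q` (except the last entry). The size `N` of the non zero elements of `O` is at least `1`. -/
structure IsLevel (E : H →* Matrix (Fin (n + 1)) (Fin (n + 1)) R) (O : Subring R) (Γ : Subgroup H) (N : R → ℝ)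
    (Q : ℝ) : Prop where
  ent : ∀ γ ∈ Γ, ∀ i j, E γ i j ∈ O
  uni : ∀ x, IsUO O (E x) → x ∈ Γ
  size : ∀ a ∈ O, a ≠ 0 → 1 ≤ N a
  low : ∀ γ ∈ Γ, ∀ j : Fin n, E γ (Fin.last n) j.castSucc ≠ 0 → Q ≤ N (E γ (Fin.last n) j.castSucc)

/-- The range. -/
def IsSmallSet (E : H →* Matrix (Fin (n + 1)) (Fin (n + 1)) R) (N : R → ℝ) (Q : ℝ) (C : Set H) (g : H) : Prop :=
  ∀ b ∈ C, ∀ b' ∈ C, (∀ j : Fin n, N (E (g * (b' * b⁻¹) * g⁻¹) (Fin.last n) j.castSucc) < Q) ∧
    N (E (g * (b' * b⁻¹) * g⁻¹) (Fin.last n) (Fin.last n) - 1) < 1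

theorem row_zero {O : Subring R} {N : R → ℝ} {Q : ℝ} (hN : ∀ a ∈ O, a ≠ 0 → 1 ≤ N a)
    {G u u' : Matrix (Fin (n + 1)) (Fin (n + 1)) R} (hG : ∀ i j, G i j ∈ O)
    (hlow : ∀ j : Fin n, G (Fin.last n) j.castSucc ≠ 0 → Q ≤ N (G (Fin.last n) j.castSucc)) (hu : IsU u) (hu' : IsU u')
    (h1 : ∀ j : Fin n, N ((u'.adjugate * G * u) (Fin.last n) j.castSucc) < Q)
    (h2 : N ((u'.adjugate * G * u) (Fin.last n) (Fin.last n) - 1) < 1) :
    (∀ j : Fin n, G (Fin.last n) j.castSucc = 0) ∧ G (Fin.last n) (Fin.last n) = 1 := by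
  have hrow : ∀ j, (u'.adjugate * G * u) (Fin.last n) j = (G * u) (Fin.last n) j := by
    intro j
    rw [mul_assoc]
    exact isU_adj_last_row hu' _ j
  have key : ∀ k : ℕ, ∀ j : Fin n, (j : ℕ) = k → G (Fin.last n) j.castSucc = 0 := by
    intro k
    induction k using Nat.strong_induction_on with
    | _ k ih =>
      intro j hj
      by_contra hne
      have h3 := h1 j
      rw [hrow, Matrix.mul_apply, Finset.sum_eq_single j.castSucc, hu.2, mul_one] at h3
      · exact absurd (hlow j hne) (not_le.2 h3)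
      · intro i _ hi
        rcases lt_or_gt_of_ne hi with h | h
        · have hi2 : (i : ℕ) < n := lt_trans (by simpa using (Fin.lt_def.1 h)) j.2
          have := ih i (by have := Fin.lt_def.1 h; simp at this; omega) ⟨i, hi2⟩ rfl
          have e : (⟨i, hi2⟩ : Fin n).castSucc = i := by ext; simp
          rw [e] at this
          rw [this, zero_mul]
        · rw [hu.1 _ _ h, mul_zero]
      · intro h; exact absurd (Finset.mem_univ _) h
  have h0 : ∀ j : Fin n, G (Fin.last n) j.castSucc = 0 := fun j => key j j rfl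
  refine ⟨h0, ?_⟩
  rw [hrow, Matrix.mul_apply, Fin.sum_univ_castSucc] at h2
  simp only [h0, zero_mul, Finset.sum_const_zero, zero_add] at h2
  rw [hu.2, mul_one] at h2
  by_contra hne
  exact absurd (hN _ (O.sub_mem (hG _ _) O.one_mem) (sub_ne_zero.2 hne)) (not_le.2 h2)

variable {vol : Measure H} [SigmaFinite vol] [IsFiniteMeasureOnCompacts vol] [vol.IsMulLeftInvariant]
  {κ : H → ℂ} {g : H} {O : Subring R} {D : Set R} (m : Measure R) [SigmaFinite m] [IsFiniteMeasureOnCompacts m]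
  [m.IsAddLeftInvariant] [m.IsNegInvariant] {χ : AddChar R Circle} (μ : ℕ → R)

theorem JJ_zero (hE : IsMatGroup E) {Γ : Subgroup H} {N : R → ℝ} {Q : ℝ} (hL : IsLevel E O Γ N Q)
    {C : Set H} (h0 : ∀ x ∉ C, κ x = 0) (hS : IsSmallSet E N Q C g) {γ : H} (hγ : γ ∈ Γ)
    (hJ : JJ m D χ μ (kk E vol κ g) (E γ) ≠ 0) :
    (∀ j : Fin n, E γ (Fin.last n) j.castSucc = 0) ∧ E γ (Fin.last n) (Fin.last n) = 1 := by
  by_contra hcon
  apply hJ
  unfold JJ
  have hz : ∀ᵐ u ∂(uMeas (m.restrict D) (n + 1)),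
      ∫ u', gI χ μ (kk E vol κ g) (E γ) (u, u') ∂(uMeas (m.restrict D) (n + 1)) = 0 := by
    filter_upwards [ae_isU (ν := m.restrict D) (n + 1)] with u hu
    rw [← integral_zero _ ℂ (μ := uMeas (m.restrict D) (n + 1))]
    refine integral_congr_ae ?_
    filter_upwards [ae_isU (ν := m.restrict D) (n + 1)] with u' hu'
    unfold gI
    dsimp only
    by_contra hne
    have hk : kk E vol κ g (u'.adjugate * E γ * u) ≠ 0 := fun h => hne (by rw [h, mul_zero])
    obtain ⟨hd, b, hb, b', hb', h1⟩ := kk_ne h0 hk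
    have h2 := hS b hb b' hb'
    rw [← h1, sl_val hd] at h2
    exact hcon (row_zero hL.size (hL.ent γ hγ) (hL.low γ hγ) hu hu' h2.1 h2.2)
  rw [integral_congr_ae hz, integral_zero]

/-- The set `g b' b⁻¹ g⁻¹`, `b, b' ∈ C`, as matrices. -/
def diffSet (E : H →* Matrix (Fin (n + 1)) (Fin (n + 1)) R) (C : Set H) (g : H) :
    Set (Matrix (Fin (n + 1)) (Fin (n + 1)) R) := {M | ∃ b ∈ C, ∃ b' ∈ C, E (g * (b' * b⁻¹) * g⁻¹) = M}

theorem corr_le (hκ : IsK κ) (h : H) : ‖corr vol κ h‖ ≤ ∫ y, ‖κ y‖ ^ 2 ∂vol := by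
  have h2 : Integrable (fun y => ‖κ y‖ ^ 2) vol :=
    (memLp_two_iff_integrable_sq_norm hκ.meas.aestronglyMeasurable).1 hκ.memLp
  have h3 : Integrable (fun y => ‖κ (h * y)‖ ^ 2) vol :=
    (measurePreserving_mul_left vol h).integrable_comp_of_integrable h2
  unfold corr
  calc ‖∫ y, conj (κ y) * κ (h * y) ∂vol‖ ≤ ∫ y, ‖conj (κ y) * κ (h * y)‖ ∂vol := norm_integral_le_integral_norm _
    _ ≤ ∫ y, ((1 / 2) * ‖κ y‖ ^ 2 + (1 / 2) * ‖κ (h * y)‖ ^ 2) ∂vol := by
        refine integral_mono_of_nonneg (Filter.Eventually.of_forall fun y => norm_nonneg _)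
          ((h2.const_mul _).add (h3.const_mul _)) (Filter.Eventually.of_forall fun y => ?_)
        dsimp only
        rw [norm_mul, RCLike.norm_conj]
        nlinarith [sq_nonneg (‖κ y‖ - ‖κ (h * y)‖)]
    _ = ∫ y, ‖κ y‖ ^ 2 ∂vol := by
        rw [integral_add (h2.const_mul _) (h3.const_mul _), integral_const_mul, integral_const_mul,
          integral_mul_left_eq_self (fun y => ‖κ y‖ ^ 2) h]
        ring

theorem trivial_bound (hE : IsMatGroup E) (hκ : IsK κ) {C : Set H} (hC : IsCompact C) (h0 : ∀ x ∉ C, κ x = 0) :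
    ‖∫ u, conj (psi χ μ u) * kk E vol κ g u ∂(uMeas m (n + 1))‖ ≤
      (∫ y, ‖κ y‖ ^ 2 ∂vol) * (uMeas m (n + 1)).real (diffSet E C g) := by
  have hcpt : IsCompact (diffSet E C g) := by
    have h1 : diffSet E C g = E '' ((fun p : H × H => g * (p.2 * p.1⁻¹) * g⁻¹) '' (C ×ˢ C)) := by
      ext M
      constructor
      · rintro ⟨b, hb, b', hb', h⟩
        exact ⟨_, ⟨(b, b'), ⟨hb, hb'⟩, rfl⟩, h⟩
      · rintro ⟨_, ⟨p, hp, rfl⟩, h⟩
        exact ⟨p.1, hp.1, p.2, hp.2, h⟩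
    rw [h1]
    exact ((hC.prod hC).image (by fun_prop)).image hE.emb.continuous
  have hz : ∀ u ∉ diffSet E C g, conj (psi χ μ u) * kk E vol κ g u = 0 := by
    intro u hu
    by_contra hne
    have hk : kk E vol κ g u ≠ 0 := fun h => hne (by rw [h, mul_zero])
    obtain ⟨hd, b, hb, b', hb', h1⟩ := kk_ne h0 hk
    exact hu ⟨b, hb, b', hb', by rw [← h1, sl_val hd]⟩
  have e1 : ∫ u, conj (psi χ μ u) * kk E vol κ g u ∂(uMeas m (n + 1)) =
      ∫ u in diffSet E C g, conj (psi χ μ u) * kk E vol κ g u ∂(uMeas m (n + 1)) := by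
    symm
    exact setIntegral_eq_integral_of_forall_compl_eq_zero fun u hu => hz u hu
  rw [e1]
  refine norm_setIntegral_le_of_norm_le_const (uMeas_compact hcpt) fun u _ => ?_
  rw [norm_conj_mul _ _ (norm_psi _ _ _)]
  unfold kk
  split_ifs with h
  · exact corr_le hκ _
  · rw [norm_zero]
    exact integral_nonneg fun y => by positivity

/-- The main inequality. -/
theorem main_ineq (hP : IsPair O D) (hχ : Continuous χ) (hμ : ∀ i < n, IsDual O χ (μ i)) (hE : IsMatGroup E)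
    {Γ : Subgroup H} {N : R → ℝ} {Q : ℝ} (hL : IsLevel E O Γ N Q)
    {F : Set H} (hF : IsFundamentalDomain Γ F vol) {J : Type*} [Fintype J] [DecidableEq J] {f : J → H → ℂ}
    (hfc : ∀ j, Continuous (f j)) (ϑ : Γ →* Circle)
    (hϑ : ∀ γ : Γ, (∀ j : Fin n, E γ (Fin.last n) j.castSucc = 0) → E γ (Fin.last n) (Fin.last n) = 1 → ϑ γ = 1)
    (hf : ∀ j (γ : Γ) h, f j (γ * h) = (ϑ γ : ℂ) * f j h)
    (ho : ∀ i j, ∫ h in F, f i h * conj (f j h) ∂vol = if i = j then 1 else 0)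
    (hκ : IsK κ) {C : Set H} (h0 : ∀ x ∉ C, κ x = 0) (hS : IsSmallSet E N Q C g) {Λ : J → ℂ}
    (hΛ : ∀ j x, ∫ y, f j (x * y) * κ y ∂vol = Λ j * f j x) :
    ∑ j, ‖Λ j‖ ^ 2 * ‖Wh E m D χ μ (f j) g‖ ^ 2 ≤ (uMeas (m.restrict D) (n + 1)).real univ *
      (∫ u, conj (psi χ μ u) * kk E vol κ g u ∂(uMeas m (n + 1))).re := by
  haveI := fin_restrict hP m
  -- `Γ` is countable
  haveI hcount : Countable Γ := by
    haveI := Lat_countable hP
    haveI : Countable O := hP.countable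
    let F1 : Γ → (Fin (n + 1) → Fin (n + 1) → O) := fun γ i j => ⟨E γ i j, hL.ent γ γ.2 i j⟩
    have hF1 : Function.Injective F1 := by
      intro γ γ' h
      apply Subtype.ext
      apply hE.emb.injective
      ext i j
      exact congrArg Subtype.val (congrFun (congrFun h i) j)
    exact hF1.countable
  set φ := ph E m D χ μ κ g with hφdef
  have hφ : IsK φ := isK_ph hP m hχ μ hE hκ
  obtain ⟨K, hK, hK0⟩ := hφ.cpt
  -- finiteness
  have hfin : {γ : Γ | ∃ x, φ x ≠ 0 ∧ φ ((γ : H) * x) ≠ 0}.Finite := by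
    have hKK : IsCompact (E '' ((fun p : H × H => p.2 * p.1⁻¹) '' (K ×ˢ K))) :=
      ((hK.prod hK).image (by fun_prop)).image hE.emb.continuous
    have h1 := mat_finite hP hKK
    refine (h1.preimage (f := fun γ : Γ => E (γ : H)) ?_).subset ?_
    · intro γ _ γ' _ h
      exact Subtype.ext (hE.emb.injective h)
    · rintro γ ⟨x, hx, hx'⟩
      refine ⟨⟨(γ : H), ⟨(x, (γ : H) * x), ⟨?_, ?_⟩, ?_⟩, rfl⟩, hL.ent γ γ.2⟩
      · by_contra hc
        exact hx (hK0 _ hc)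
      · by_contra hc
        exact hx' (hK0 _ hc)
      · show (γ : H) * x * x⁻¹ = γ
        rw [mul_inv_cancel_right]
  have hT : ∀ (γ : Γ) x, φ x ≠ 0 → φ ((γ : H) * x) ≠ 0 → γ ∈ hfin.toFinset := by
    intro γ x hx hx'
    rw [Set.Finite.mem_toFinset]
    exact ⟨x, hx, hx'⟩
  have hbes := poincare_bessel hF (fun j => (hfc j).measurable) ϑ hf ho hφ.meas hT hφ.memLp
    (fun j => (hφ.mul_cont (hfc j)).integrable)
  have hcoef : ∀ j, ‖∫ x, φ x * f j x ∂vol‖ ^ 2 = ‖Λ j‖ ^ 2 * ‖Wh E m D χ μ (f j) g‖ ^ 2 := by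
    intro j
    rw [hφdef, coef hP m hχ μ hE hκ (hfc j) (hΛ j), norm_mul, mul_pow]
  simp_rw [hcoef] at hbes
  refine hbes.trans (le_of_eq ?_)
  -- the Gram sum
  set k := kk E vol κ g with hk
  have hkK : IsK k := isK_kk hE hκ
  have hG : ∀ γ : Γ, (ϑ γ : ℂ) * ∫ x, conj (φ x) * φ ((γ : H) * x) ∂vol = (ϑ γ : ℂ) * JJ m D χ μ k (E γ) := by
    intro γ
    rw [hφdef, gram hP m hχ μ hE hκ]
  have hzero : ∀ γ : Γ, γ ∉ hfin.toFinset → (ϑ γ : ℂ) * JJ m D χ μ k (E γ) = 0 := by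
    intro γ hγ
    rw [← hG]
    have : ∀ x, conj (φ x) * φ ((γ : H) * x) = 0 := by
      intro x
      by_contra hne
      apply hγ
      exact hT γ x (fun h => hne (by rw [h, map_zero, zero_mul])) (fun h => hne (by rw [h, mul_zero]))
    simp_rw [this]
    rw [integral_zero, mul_zero]
  have htsum : ∑' γ : Γ, (ϑ γ : ℂ) * JJ m D χ μ k (E γ) =
      ∑ γ ∈ hfin.toFinset, (ϑ γ : ℂ) * JJ m D χ μ k (E γ) := tsum_eq_sum fun γ hγ => hzero γ hγ
  rw [Finset.sum_congr rfl fun γ _ => hG γ, ← htsum]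
  -- the set of upper left blocks
  set A : Set (Matrix (Fin n) (Fin n) R) := {a | ∃ γ ∈ Γ, E γ = ext a 0} with hA
  have hmem : ∀ {a : Matrix (Fin n) (Fin n) R} {b : Fin n → R}, a ∈ A → (∀ i, b i ∈ O) →
      ∃ γ ∈ Γ, E γ = ext a b := by
    rintro a b ⟨γ, hγ, h⟩ hb
    have hu : IsUO O (ext (1 : Matrix (Fin n) (Fin n) R) b) := isUO_ext isUO_one hb
    obtain ⟨x, hx⟩ := hE.uni _ hu.1
    refine ⟨x * γ, Γ.mul_mem (hL.uni x (by rw [hx]; exact hu)) hγ, ?_⟩
    rw [map_mul, hx, h, ext_mul, mulVec_zero, zero_add, one_mul]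
  have hAc : IsCl O A := by
    refine ⟨?_, ⟨1, Γ.one_mem, by rw [map_one, ext_one]⟩, ?_⟩
    · rintro a ⟨γ, hγ, h⟩ i j
      have := hL.ent γ hγ i.castSucc j.castSucc
      rwa [h, ext_cc] at this
    · rintro u hu a ⟨γ, hγ, h⟩
      have hu2 : IsUO O (ext u (0 : Fin n → R)) := isUO_ext hu fun i => O.zero_mem
      obtain ⟨x, hx⟩ := hE.uni _ hu2.1
      refine ⟨x * γ, Γ.mul_mem (hL.uni x (by rw [hx]; exact hu2)) hγ, ?_⟩
      rw [map_mul, hx, h, ext_mul, mulVec_zero, zero_add]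
  choose ι hι hι2 using fun p : A × Lat O n => hmem p.1.2 (mem_Lat.1 p.2.2)
  set ι' : A × Lat O n → Γ := fun p => ⟨ι p, hι p⟩ with hι'
  have hinj : Function.Injective ι' := by
    intro p p' h
    have h1 : ι p = ι p' := congrArg Subtype.val h
    have h2 : ext p.1.1 p.2.1 = ext p'.1.1 p'.2.1 := by rw [← hι2 p, ← hι2 p', h1]
    have h3 := ext_inj h2
    exact Prod.ext (Subtype.ext h3.1) (Subtype.ext h3.2)
  have hsupp : Function.support (fun γ : Γ => (ϑ γ : ℂ) * JJ m D χ μ k (E γ)) ⊆ range ι' := by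
    intro γ hγ
    have hJ : JJ m D χ μ k (E γ) ≠ 0 := fun h => hγ (by show (ϑ γ : ℂ) * JJ m D χ μ k (E γ) = 0; rw [h, mul_zero])
    have hrow := JJ_zero m μ hE hL h0 hS γ.2 hJ
    have he : ext (top (E γ)) (col (E γ)) = E γ := ext_top_col hrow.1 hrow.2
    have hcol : ∀ i, col (E γ) i ∈ O := fun i => hL.ent γ γ.2 _ _
    have htop : top (E γ) ∈ A := by
      have hu : IsUO O (ext (1 : Matrix (Fin n) (Fin n) R) (-(col (E γ)))) :=
        isUO_ext isUO_one fun i => O.neg_mem (hcol i)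
      obtain ⟨x, hx⟩ := hE.uni _ hu.1
      refine ⟨x * γ, Γ.mul_mem (hL.uni x (by rw [hx]; exact hu)) γ.2, ?_⟩
      rw [map_mul, hx, ← he, ext_mul, one_mulVec, one_mul, top_ext, col_ext, add_neg_cancel]
    refine ⟨(⟨_, htop⟩, ⟨_, mem_Lat.2 hcol⟩), ?_⟩
    apply Subtype.ext
    apply hE.emb.injective
    rw [hι']
    show E (ι (⟨_, htop⟩, ⟨_, mem_Lat.2 hcol⟩)) = E γ
    rw [hι2]
    exact he
  have e1 : ∑' γ : Γ, (ϑ γ : ℂ) * JJ m D χ μ k (E γ) = ∑' p : A × Lat O n, JJ m D χ μ k (ext p.1.1 p.2.1) := by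
    rw [← hinj.tsum_eq hsupp]
    refine tsum_congr fun p => ?_
    show (ϑ (ι' p) : ℂ) * JJ m D χ μ k (E (ι p)) = _
    rw [hι2, hϑ (ι' p), Circle.coe_one, one_mul]
    · intro j
      show E (ι p) (Fin.last n) j.castSucc = 0
      rw [hι2, ext_lc]
    · show E (ι p) (Fin.last n) (Fin.last n) = 1
      rw [hι2, ext_ll]
  have hsum : Summable fun p : A × Lat O n => JJ m D χ μ k (ext p.1.1 p.2.1) := by
    refine summable_of_hasFiniteSupport ?_
    have h4 := JJ_support hP m χ μ hkK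
    refine Set.Finite.subset (h4.preimage (f := fun p : A × Lat O n => ext p.1.1 p.2.1) ?_) ?_
    · rintro ⟨a, b⟩ _ ⟨a', b'⟩ _ h
      have := ext_inj h
      exact Prod.ext (Subtype.ext this.1) (Subtype.ext this.2)
    · intro p hp
      refine ⟨fun i j => ?_, hp⟩
      show ext p.1.1 p.2.1 i j ∈ O
      rw [← hι2 p]
      exact hL.ent _ (hι p) i j
  rw [e1, hsum.tsum_prod, theta hP m hχ n hμ hkK hAc]
  rw [Complex.re_ofReal_mul]

end Pool.Agent.H496.R8
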