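import Mathlib
import Pool.Agent.H496.R8.Main

/-! Conjugation by diagonal matrices. -/

set_option autoImplicit false
set_option linter.unusedSectionVars false
set_option linter.style.haveILetI false

namespace Pool.Agent.H496.R8

open MeasureTheory Matrix Set
open scoped ComplexConjugate ENNReal Pointwise Classical

variable {R : Type*} [CommRing R] [TopologicalSpace R] [IsTopologicalRing R] [MeasurableSpace R] [BorelSpace R]
  [SecondCountableTopology R] [T2Space R] {r : ℕ}

/-- `ρ` is the module: `m(aS) = ρ(a) m(S)`. -/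
def IsMod (m : Measure R) (ρ : Rˣ → ℝ) : Prop :=
  ∀ a : Rˣ, 0 < ρ a ∧ ∀ S : Set R, m ((fun x => (a : R) * x) '' S) = ENNReal.ofReal (ρ a) * m S

/-- The conjugation `(a_i M_ij a_j⁻¹)` by a diagonal matrix. -/
def cj (a : Fin r → Rˣ) (M : Matrix (Fin r) (Fin r) R) : Matrix (Fin r) (Fin r) R :=
  Matrix.of fun i j => (a i : R) * M i j * ((a j)⁻¹ : Rˣ)

/-- The modulus character `∏_{i<j} ρ(a_i / a_j)`. -/
noncomputable def modU (ρ : Rˣ → ℝ) (a : Fin r → Rˣ) : ℝ :=
  ∏ i : Fin r, ∏ j : Fin r, if i < j then ρ (a i * (a j)⁻¹) else 1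

theorem modU_succ (ρ : Rˣ → ℝ) (a : Fin (r + 1) → Rˣ) :
    modU ρ a = modU ρ (fun i => a i.castSucc) * ∏ i : Fin r, ρ (a i.castSucc * (a (Fin.last r))⁻¹) := by
  unfold modU
  rw [Fin.prod_univ_castSucc]
  have h1 : (∏ j : Fin (r + 1), if Fin.last r < j then ρ (a (Fin.last r) * (a j)⁻¹) else 1) = 1 :=
    Finset.prod_eq_one fun j _ => if_neg (not_lt.2 (Fin.le_last j))
  rw [h1, mul_one, ← Finset.prod_mul_distrib]
  refine Finset.prod_congr rfl fun i _ => ?_
  rw [Fin.prod_univ_castSucc, if_pos (Fin.castSucc_lt_last i)]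
  simp only [Fin.castSucc_lt_castSucc_iff]

theorem modU_pos {m : Measure R} {ρ : Rˣ → ℝ} (h : IsMod m ρ) (a : Fin r → Rˣ) : 0 < modU ρ a := by
  unfold modU
  refine Finset.prod_pos fun i _ => Finset.prod_pos fun j _ => ?_
  split_ifs
  · exact (h _).1
  · exact zero_lt_one

theorem modU_nonneg {m : Measure R} {ρ : Rˣ → ℝ} (h : IsMod m ρ) (a : Fin r → Rˣ) : 0 ≤ modU ρ a :=
  (modU_pos h a).le

theorem cj_ext (a : Fin (r + 1) → Rˣ) (u : Matrix (Fin r) (Fin r) R) (b : Fin r → R) :
    cj a (ext u b) = ext (cj (fun i => a i.castSucc) u)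
      (fun i => ((a i.castSucc * (a (Fin.last r))⁻¹ : Rˣ) : R) * b i) := by
  ext i j
  unfold cj
  rw [Matrix.of_apply]
  refine Fin.lastCases ?_ (fun i => ?_) i <;> refine Fin.lastCases ?_ (fun j => ?_) j
  · rw [ext_ll, ext_ll, mul_one, Units.mul_inv]
  · rw [ext_lc, ext_lc, mul_zero, zero_mul]
  · rw [ext_cl, ext_cl, Units.val_mul]
    ring
  · rw [ext_cc, ext_cc, Matrix.of_apply]

theorem continuous_cj (a : Fin r → Rˣ) : Continuous (cj a) :=
  continuous_matrix fun i j => (continuous_const.mul (continuous_id.matrix_elem i j)).mul continuous_const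

theorem cj_inv_cj (a : Fin r → Rˣ) (M : Matrix (Fin r) (Fin r) R) : cj (fun i => (a i)⁻¹) (cj a M) = M := by
  ext i j
  unfold cj
  simp only [Matrix.of_apply, inv_inv]
  calc ((a i)⁻¹ : Rˣ) * ((a i : R) * M i j * ((a j)⁻¹ : Rˣ)) * (a j : R) =
      (((a i)⁻¹ : Rˣ) * (a i : R)) * M i j * (((a j)⁻¹ : Rˣ) * (a j : R)) := by ring
    _ = M i j := by rw [Units.inv_mul, Units.inv_mul, one_mul, mul_one]

theorem cj_cj_inv (a : Fin r → Rˣ) (M : Matrix (Fin r) (Fin r) R) : cj a (cj (fun i => (a i)⁻¹) M) = M := by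
  have := cj_inv_cj (fun i => (a i)⁻¹) M
  simpa using this

theorem map_mul_const {m : Measure R} {ρ : Rˣ → ℝ} (h : IsMod m ρ) (a : Rˣ) :
    m.map (fun x => (a : R) * x) = ENNReal.ofReal (ρ a⁻¹) • m := by
  ext S hS
  have hc : Measurable fun x : R => (a : R) * x := (continuous_const.mul continuous_id).measurable
  rw [Measure.map_apply hc hS, Measure.smul_apply, smul_eq_mul, ← (h a⁻¹).2]
  congr 1
  ext x
  constructor
  · intro hx
    refine ⟨(a : R) * x, hx, ?_⟩
    show ((a⁻¹ : Rˣ) : R) * ((a : R) * x) = x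
    rw [← mul_assoc, Units.inv_mul, one_mul]
  · rintro ⟨y, hy, rfl⟩
    show (a : R) * (((a⁻¹ : Rˣ) : R) * y) ∈ S
    rw [← mul_assoc, Units.mul_inv, one_mul]
    exact hy

theorem map_pi_const {m : Measure R} [SigmaFinite m] {ρ : Rˣ → ℝ} (h : IsMod m ρ) (a : Fin r → Rˣ) :
    (Measure.pi fun _ : Fin r => m).map (fun b i => (a i : R) * b i) =
      ENNReal.ofReal (∏ i, ρ (a i)⁻¹) • Measure.pi fun _ : Fin r => m := by
  have hs : ∀ i, SigmaFinite (m.map (fun x => (a i : R) * x)) := by
    intro i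
    let e : R ≃ᵐ R := (Homeomorph.toMeasurableEquiv
      { toFun := fun x => (a i : R) * x
        invFun := fun x => ((a i)⁻¹ : Rˣ) * x
        left_inv := fun x => by
          show (((a i)⁻¹ : Rˣ) : R) * ((a i : R) * x) = x
          rw [← mul_assoc, Units.inv_mul, one_mul]
        right_inv := fun x => by
          show (a i : R) * ((((a i)⁻¹ : Rˣ) : R) * x) = x
          rw [← mul_assoc, Units.mul_inv, one_mul]
        continuous_toFun := continuous_const.mul continuous_id
        continuous_invFun := continuous_const.mul continuous_id })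
    exact e.sigmaFinite_map
  have h1 := Measure.pi_map_pi (μ := fun _ : Fin r => m) (f := fun i x => (a i : R) * x)
    (fun i => (continuous_const.mul continuous_id).measurable.aemeasurable)
  rw [h1]
  refine Measure.pi_eq fun s hs => ?_
  rw [Measure.smul_apply, Measure.pi_pi, smul_eq_mul, ENNReal.ofReal_prod_of_nonneg fun i _ => (h _).1.le,
    ← Finset.prod_mul_distrib]
  refine Finset.prod_congr rfl fun i _ => ?_
  rw [map_mul_const h, Measure.smul_apply, smul_eq_mul]

theorem map_cj {m : Measure R} [SigmaFinite m] {ρ : Rˣ → ℝ} (h : IsMod m ρ) (a : Fin r → Rˣ) :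
    (uMeas m r).map (cj a) = ENNReal.ofReal (modU ρ fun i => (a i)⁻¹) • uMeas m r := by
  induction r with
  | zero =>
    unfold uMeas modU
    rw [Measure.map_dirac' (continuous_cj a).measurable]
    simp only [Finset.univ_eq_empty, Finset.prod_empty, ENNReal.ofReal_one, one_smul]
    congr 1
    exact Subsingleton.elim _ _
  | succ r ih =>
    set a' : Fin r → Rˣ := fun i => a i.castSucc with ha'
    set c : Fin r → Rˣ := fun i => a i.castSucc * (a (Fin.last r))⁻¹ with hc
    have hcm : Measurable (cj a') := (continuous_cj a').measurable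
    have hbm : Measurable fun (b : Fin r → R) i => (c i : R) * b i :=
      (continuous_pi fun i => continuous_const.mul (continuous_apply i)).measurable
    have e1 : cj a ∘ (fun p : Matrix (Fin r) (Fin r) R × (Fin r → R) => ext p.1 p.2) =
        (fun p : Matrix (Fin r) (Fin r) R × (Fin r → R) => ext p.1 p.2) ∘
          Prod.map (cj a') (fun b i => (c i : R) * b i) := by
      funext p
      exact cj_ext a p.1 p.2
    show (((uMeas m r).prod (Measure.pi fun _ : Fin r => m)).map fun p => ext p.1 p.2).map (cj a) =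
      _ • ((uMeas m r).prod (Measure.pi fun _ : Fin r => m)).map fun p => ext p.1 p.2
    rw [Measure.map_map (continuous_cj a).measurable measurable_ext, e1,
      ← Measure.map_map measurable_ext (hcm.prodMap hbm), ← Measure.map_prod_map _ _ hcm hbm, ih a', map_pi_const h c,
      Measure.prod_smul_left, Measure.prod_smul_right, Measure.map_smul, Measure.map_smul, smul_smul,
      ← ENNReal.ofReal_mul (modU_nonneg h _), modU_succ]
    congr 3
    refine Finset.prod_congr rfl fun i _ => ?_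
    rw [hc, mul_inv]

theorem uMeas_cj {m : Measure R} [SigmaFinite m] {ρ : Rˣ → ℝ} (h : IsMod m ρ) (a : Fin r → Rˣ)
    {S : Set (Matrix (Fin r) (Fin r) R)} (hS : MeasurableSet S) :
    (uMeas m r).real (cj a '' S) = modU ρ a * (uMeas m r).real S := by
  have h1 := map_cj h fun i => (a i)⁻¹
  have h2 : cj a '' S = cj (fun i => (a i)⁻¹) ⁻¹' S := by
    ext M
    constructor
    · rintro ⟨x, hx, rfl⟩
      show cj (fun i => (a i)⁻¹) (cj a x) ∈ S
      rw [cj_inv_cj]; exact hx
    · intro hM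
      exact ⟨_, hM, cj_cj_inv a M⟩
  rw [Measure.real, h2, ← Measure.map_apply (continuous_cj _).measurable hS, h1, Measure.smul_apply, smul_eq_mul,
    ENNReal.toReal_mul, Measure.real]
  simp only [inv_inv]
  rw [ENNReal.toReal_ofReal (modU_nonneg h _)]

variable {H : Type*} [Group H] [TopologicalSpace H] [IsTopologicalGroup H] [SecondCountableTopology H] [T2Space H]
  [MeasurableSpace H] [BorelSpace H] {n : ℕ}
variable {E : H →* Matrix (Fin (n + 1)) (Fin (n + 1)) R}

theorem E_inv_diag {t : H} {a : Fin (n + 1) → Rˣ} (h : E t = diagonal fun i => (a i : R)) :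
    E t⁻¹ = diagonal fun i => (((a i)⁻¹ : Rˣ) : R) := by
  have h1 : E t⁻¹ * E t = 1 := by rw [← map_mul, inv_mul_cancel, map_one]
  have h2 : E t * (diagonal fun i => (((a i)⁻¹ : Rˣ) : R)) = 1 := by
    rw [h, diagonal_mul_diagonal]
    simp
  calc E t⁻¹ = E t⁻¹ * (E t * (diagonal fun i => (((a i)⁻¹ : Rˣ) : R))) := by rw [h2, mul_one]
    _ = _ := by rw [← mul_assoc, h1, one_mul]

theorem diffSet_torus {C : Set H} {g t : H} {a : Fin (n + 1) → Rˣ} (h : E t = diagonal fun i => (a i : R)) :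
    diffSet E C (t * g) = cj a '' (diffSet E C g) := by
  have key : ∀ x : H, E (t * x * t⁻¹) = cj a (E x) := by
    intro x
    rw [map_mul, map_mul, h, E_inv_diag h]
    ext i j
    rw [mul_diagonal, diagonal_mul]
    rfl
  ext M
  constructor
  · rintro ⟨b, hb, b', hb', rfl⟩
    refine ⟨_, ⟨b, hb, b', hb', rfl⟩, ?_⟩
    rw [← key]
    congr 1
    group
  · rintro ⟨_, ⟨b, hb, b', hb', rfl⟩, rfl⟩
    refine ⟨b, hb, b', hb', ?_⟩
    rw [← key]
    congr 1
    group

theorem isCompact_diffSet (hE : IsMatGroup E) {C : Set H} (hC : IsCompact C) (g : H) : IsCompact (diffSet E C g) := by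
  have h1 : diffSet E C g = E '' ((fun p : H × H => g * (p.2 * p.1⁻¹) * g⁻¹) '' (C ×ˢ C)) := by
    ext M
    constructor
    · rintro ⟨b, hb, b', hb', h⟩
      exact ⟨_, ⟨(b, b'), ⟨hb, hb'⟩, rfl⟩, h⟩
    · rintro ⟨_, ⟨p, hp, rfl⟩, h⟩
      exact ⟨p.1, hp.1, p.2, hp.2, h⟩
  rw [h1]
  exact ((hC.prod hC).image (by fun_prop)).image hE.emb.continuous

theorem uMeas_univ_pow {D : Set R} (m : Measure R) [SigmaFinite m] [IsFiniteMeasure (m.restrict D)] (r : ℕ) :
    (uMeas (m.restrict D) (r + 1)).real univ = (m.real D) ^ ((r + 1) * r / 2) := by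
  induction r with
  | zero => rw [uMeas_one]; simp
  | succ r ih =>
    rw [uMeas_univ, ih, Measure.restrict_apply_univ]
    show m.real D ^ ((r + 1) * r / 2) * m.real D ^ (r + 1) = _
    rw [← pow_add]
    congr 1
    have h1 : (r + 1 + 1) * (r + 1) = (r + 1) * r + (r + 1) * 2 := by ring
    rw [h1, Nat.add_mul_div_right _ _ (by norm_num)]

end Pool.Agent.H496.R8
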