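import Mathlib
import Pool.Agent.H496.R8.Tor
import Pool.Agent.H496.R8.Dens

/-! The three statements. -/

set_option autoImplicit false
set_option linter.unusedSectionVars false
set_option linter.style.haveILetI false

namespace Pool.Agent.H496.R8

open MeasureTheory Matrix Set
open scoped ComplexConjugate ENNReal Pointwise Classical

variable {R : Type*} [CommRing R] [TopologicalSpace R] [IsTopologicalRing R] [MeasurableSpace R] [BorelSpace R]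
  [SecondCountableTopology R] [T2Space R] {n : ℕ}
variable {H : Type*} [Group H] [TopologicalSpace H] [IsTopologicalGroup H] [SecondCountableTopology H] [T2Space H]
  [MeasurableSpace H] [BorelSpace H]
variable {E : H →* Matrix (Fin (n + 1)) (Fin (n + 1)) R}

/-- The `f_j` are continuous functions with `f_j(γh) = ϑ(γ) f_j(h)`, orthonormal on the fundamental domain `F` of
`Γ \ H`. -/
def IsForms (vol : Measure H) (Γ : Subgroup H) (F : Set H) (ϑ : Γ →* Circle) {J : Type*} [DecidableEq J]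
    (f : J → H → ℂ) : Prop :=
  IsFundamentalDomain Γ F vol ∧ (∀ j, Continuous (f j)) ∧ (∀ j (γ : Γ) h, f j (γ * h) = (ϑ γ : ℂ) * f j h) ∧
    ∀ i j, ∫ h in F, f i h * conj (f j h) ∂vol = if i = j then 1 else 0

/-- The nebentypus `ϑ` is trivial on the elements of `Γ` with last row `(0, …, 0, 1)`. -/
def IsNeb (E : H →* Matrix (Fin (n + 1)) (Fin (n + 1)) R) (Γ : Subgroup H) (ϑ : Γ →* Circle) : Prop :=
  ∀ γ : Γ, (∀ j : Fin n, E γ (Fin.last n) j.castSucc = 0) → E γ (Fin.last n) (Fin.last n) = 1 → ϑ γ = 1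

/-- The bound: `vol(D)^{n(n+1)/2} ‖κ‖² vol_U(g C C⁻¹ g⁻¹ ∩ U)`. -/
noncomputable def bnd (E : H →* Matrix (Fin (n + 1)) (Fin (n + 1)) R) (m : Measure R) (D : Set R) (vol : Measure H)
    (κ : H → ℂ) (C : Set H) (g : H) : ℝ :=
  m.real D ^ ((n + 1) * n / 2) * ((∫ y, ‖κ y‖ ^ 2 ∂vol) * (uMeas m (n + 1)).real (diffSet E C g))

variable {vol : Measure H} [SigmaFinite vol] [IsFiniteMeasureOnCompacts vol] [vol.IsMulLeftInvariant]
  {κ : H → ℂ} {O : Subring R} {D : Set R} (m : Measure R) [SigmaFinite m] [IsFiniteMeasureOnCompacts m]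
  [m.IsAddLeftInvariant] [m.IsNegInvariant] {χ : AddChar R Circle}

theorem one {μ : ℕ → R} (hP : IsPair O D) (hχ : Continuous χ) (hμ : ∀ i < n, IsDual O χ (μ i)) (hE : IsMatGroup E)
    {Γ : Subgroup H} {N : R → ℝ} {Q : ℝ} (hL : IsLevel E O Γ N Q)
    {F : Set H} {J : Type*} [Fintype J] [DecidableEq J] {f : J → H → ℂ} {ϑ : Γ →* Circle} (hϑ : IsNeb E Γ ϑ)
    (hf : IsForms vol Γ F ϑ f) (hκ : IsK κ) {C : Set H} (h0 : ∀ x ∉ C, κ x = 0) {Λ : J → ℂ}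
    (hΛ : ∀ j x, ∫ y, f j (x * y) * κ y ∂vol = Λ j * f j x) {g : H} (hS : IsSmallSet E N Q C g) :
    ∑ j, ‖Λ j‖ ^ 2 * ‖Wh E m D χ μ (f j) g‖ ^ 2 ≤ m.real D ^ ((n + 1) * n / 2) *
      (∫ u, conj (psi χ μ u) * kk E vol κ g u ∂(uMeas m (n + 1))).re := by
  haveI := fin_restrict hP m
  have h1 := main_ineq m μ hP hχ hμ hE hL hf.1 hf.2.1 ϑ hϑ hf.2.2.1 hf.2.2.2 hκ h0 hS hΛ
  rwa [uMeas_univ_pow] at h1

theorem two {μ : ℕ → R} (hP : IsPair O D) (hχ : Continuous χ) (hμ : ∀ i < n, IsDual O χ (μ i)) (hE : IsMatGroup E)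
    {Γ : Subgroup H} {N : R → ℝ} {Q : ℝ} (hL : IsLevel E O Γ N Q)
    {F : Set H} {J : Type*} [Fintype J] [DecidableEq J] {f : J → H → ℂ} {ϑ : Γ →* Circle} (hϑ : IsNeb E Γ ϑ)
    (hf : IsForms vol Γ F ϑ f) (hκ : IsK κ) {C : Set H} (hC : IsCompact C) (h0 : ∀ x ∉ C, κ x = 0) {Λ : J → ℂ}
    (hΛ : ∀ j x, ∫ y, f j (x * y) * κ y ∂vol = Λ j * f j x) {ρ : Rˣ → ℝ} (hρ : IsMod m ρ) {g t : H}
    {a : Fin (n + 1) → Rˣ} (ht : E t = diagonal fun i => (a i : R)) (hS : IsSmallSet E N Q C (t * g)) :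
    ∑ j, ‖Λ j‖ ^ 2 * ‖Wh E m D χ μ (f j) (t * g)‖ ^ 2 ≤ modU ρ a * bnd E m D vol κ C g := by
  refine (one m hP hχ hμ hE hL hϑ hf hκ h0 hΛ hS).trans ?_
  have h2 := trivial_bound (vol := vol) (g := t * g) (χ := χ) m μ hE hκ hC h0
  rw [diffSet_torus ht, uMeas_cj hρ a (isCompact_diffSet hE hC g).isClosed.measurableSet] at h2
  have h3 := (Complex.re_le_norm _).trans h2
  unfold bnd
  calc _ ≤ m.real D ^ ((n + 1) * n / 2) * ((∫ y, ‖κ y‖ ^ 2 ∂vol) * (modU ρ a * (uMeas m (n + 1)).real (diffSet E C g))) :=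
        mul_le_mul_of_nonneg_left h3 (pow_nonneg measureReal_nonneg _)
    _ = _ := by ring

theorem three (hP : IsPair O D) (hχ : Continuous χ) (hE : IsMatGroup E)
    {Γ : Subgroup H} {N : R → ℝ} {Q : ℝ} (hL : IsLevel E O Γ N Q)
    {F : Set H} {J : Type*} [Fintype J] [DecidableEq J] {f : J → H → ℂ} {ϑ : Γ →* Circle} (hϑ : IsNeb E Γ ϑ)
    (hf : IsForms vol Γ F ϑ f) (hκ : IsK κ) {C : Set H} (hC : IsCompact C) (h0 : ∀ x ∉ C, κ x = 0) {Λ : J → ℂ}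
    (hΛ : ∀ j x, ∫ y, f j (x * y) * κ y ∂vol = Λ j * f j x) {ρ : Rˣ → ℝ} (hρ : IsMod m ρ) {g : H}
    {α : J → Fin (n + 1) → ℂ} {w : J → ℂ} {M : ℕ} (hM : n ≤ M) {μ : ℕ → ℕ → R} {t : ℕ → H}
    {a : ℕ → Fin (n + 1) → Rˣ} (hμ : ∀ l, M - n ≤ l → l ≤ M → ∀ i < n, IsDual O χ (μ l i))
    (ht : ∀ l, M - n ≤ l → l ≤ M → E (t l) = diagonal fun i => (a l i : R))
    (hS : ∀ l, M - n ≤ l → l ≤ M → IsSmallSet E N Q C (t l * g))
    (hW : ∀ l, M - n ≤ l → l ≤ M → ∀ j, Wh E m D χ (μ l) (f j) (t l * g) =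
      (Real.sqrt (modU ρ (a l)) : ℂ) * hs (α j) l * w j) {A : ℝ} (hA : 0 < A) :
    ∑ j with ∃ i, A ≤ ‖α j i‖, ‖Λ j‖ ^ 2 * ‖w j‖ ^ 2 ≤ ((1 + A) ^ n / A ^ M) ^ 2 * bnd E m D vol κ C g := by
  refine density α (fun j => ‖Λ j‖ ^ 2 * ‖w j‖ ^ 2) (fun j => by positivity) hM (fun l hl hl' => ?_) hA _
    (fun j hj => (Finset.mem_filter.1 hj).2)
  have h1 := two m hP hχ (hμ l hl hl') hE hL hϑ hf hκ hC h0 hΛ hρ (ht l hl hl') (hS l hl hl')
  have hpos := modU_pos hρ (a l)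
  have h2 : ∀ j, ‖Λ j‖ ^ 2 * ‖Wh E m D χ (μ l) (f j) (t l * g)‖ ^ 2 =
      modU ρ (a l) * (‖hs (α j) l‖ ^ 2 * (‖Λ j‖ ^ 2 * ‖w j‖ ^ 2)) := by
    intro j
    rw [hW l hl hl' j, norm_mul, norm_mul, Complex.norm_real, Real.norm_of_nonneg (Real.sqrt_nonneg _), mul_pow, mul_pow,
      Real.sq_sqrt hpos.le]
    ring
  simp_rw [h2] at h1
  rw [← Finset.mul_sum] at h1
  exact le_of_mul_le_mul_left h1 hpos

end Pool.Agent.H496.R8
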