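import Mathlib
import Pool.Agent.H496.R8.Main

/-! Number fields: the pair `(K_∞, 𝓞_K)`. -/

set_option autoImplicit false
set_option linter.unusedSectionVars false

namespace Pool.Agent.H496.R8

open MeasureTheory Matrix Set NumberField
open scoped Classical

variable (K : Type*) [Field K] [NumberField K]

/-- The ring of integers in `K_∞ = ℝ^{r_1} × ℂ^{r_2}`. -/
noncomputable def intK : Subring (mixedEmbedding.mixedSpace K) :=
  ((mixedEmbedding K).comp (algebraMap (𝓞 K) K)).range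

/-- The fundamental parallelotope of the integers. -/
noncomputable def domK : Set (mixedEmbedding.mixedSpace K) :=
  ZSpan.fundamentalDomain (mixedEmbedding.latticeBasis K)

theorem mem_span_iff (x : mixedEmbedding.mixedSpace K) :
    x ∈ Submodule.span ℤ (Set.range (mixedEmbedding.latticeBasis K)) ↔ x ∈ intK K := by
  rw [mixedEmbedding.mem_span_latticeBasis]
  exact Iff.rfl

theorem isPair_numberField : IsPair (intK K) (domK K) := by
  refine ⟨?_, fun C hC => ?_, ZSpan.fundamentalDomain_measurableSet _, ?_, fun x => ?_⟩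
  · have : Countable (𝓞 K) := (RingOfIntegers.basis K).repr.injective.countable
    exact Set.countable_range _
  · have h1 := ZSpan.setFinite_inter (mixedEmbedding.latticeBasis K) hC.isBounded
    refine h1.subset ?_
    rintro x ⟨hx, hx'⟩
    exact ⟨hx, (mem_span_iff K x).2 hx'⟩
  · have h1 := ZSpan.fundamentalDomain_isBounded (mixedEmbedding.latticeBasis K)
    exact ⟨_, h1.isCompact_closure, subset_closure⟩
  · obtain ⟨v, hv, hu⟩ := ZSpan.exist_unique_vadd_mem_fundamentalDomain (mixedEmbedding.latticeBasis K) x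
    refine ⟨⟨v, (mem_span_iff K _).1 v.2⟩, hv, ?_⟩
    intro o ho
    have h1 := hu ⟨o, (mem_span_iff K _).2 o.2⟩ ho
    have h2 : (o : mixedEmbedding.mixedSpace K) = v := congrArg Subtype.val h1
    exact Subtype.ext h2

/-- The size: for an ideal `𝔮` the non zero elements of `𝔮` have norm at least `N𝔮`. -/
theorem norm_ge (𝔮 : Ideal (𝓞 K)) {x : 𝓞 K} (hx : x ∈ 𝔮) (h0 : x ≠ 0) :
    (Ideal.absNorm 𝔮 : ℝ) ≤ mixedEmbedding.norm (mixedEmbedding K (x : K)) := by
  rw [mixedEmbedding.norm_eq_norm]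
  have h1 : Ideal.absNorm 𝔮 ∣ (Algebra.norm ℤ x).natAbs := by
    rw [← Ideal.absNorm_span_singleton]
    exact Ideal.absNorm_dvd_absNorm_of_le ((Ideal.span_singleton_le_iff_mem _).2 hx)
  have h2 : Ideal.absNorm 𝔮 ≤ (Algebra.norm ℤ x).natAbs :=
    Nat.le_of_dvd (Int.natAbs_pos.2 (Algebra.norm_ne_zero_iff.2 h0)) h1
  have h3 : ((Algebra.norm ℚ (x : K) : ℚ) : ℝ) = ((Algebra.norm ℤ x : ℤ) : ℝ) := by
    have := Algebra.coe_norm_int x
    rw [← this]
    simp
  have h4 : |((Algebra.norm ℤ x : ℤ) : ℝ)| = ((Algebra.norm ℤ x).natAbs : ℝ) := by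
    rw [Nat.cast_natAbs]; push_cast; rfl
  calc (Ideal.absNorm 𝔮 : ℝ) ≤ ((Algebra.norm ℤ x).natAbs : ℝ) := by exact_mod_cast h2
    _ = |((Algebra.norm ℚ (x : K) : ℚ) : ℝ)| := by rw [h3, h4]
    _ = _ := by simp

/-- The level structure: the last row lies in `𝔮`. -/
theorem isLevel_numberField {n : ℕ} {H : Type*} [Group H]
    {E : H →* Matrix (Fin (n + 1)) (Fin (n + 1)) (mixedEmbedding.mixedSpace K)} {Γ : Subgroup H} (𝔮 : Ideal (𝓞 K))
    (h1 : ∀ γ ∈ Γ, ∀ i j, E γ i j ∈ intK K) (h2 : ∀ x, IsUO (intK K) (E x) → x ∈ Γ)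
    (h3 : ∀ γ ∈ Γ, ∀ j : Fin n, ∃ c ∈ 𝔮, E γ (Fin.last n) j.castSucc = mixedEmbedding K (c : K)) :
    IsLevel E (intK K) Γ (fun x => mixedEmbedding.norm x) (Ideal.absNorm 𝔮) := by
  refine ⟨h1, h2, ?_, ?_⟩
  · rintro a ⟨x, rfl⟩ ha
    have h4 := norm_ge K ⊤ (x := x) Submodule.mem_top (fun h => ha (by rw [h, map_zero]))
    rw [Ideal.absNorm_top, Nat.cast_one] at h4
    exact h4
  · intro γ hγ j hne
    obtain ⟨c, hc, h⟩ := h3 γ hγ j
    rw [h]
    refine norm_ge K 𝔮 hc ?_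
    rintro rfl
    apply hne
    rw [h]
    simp

end Pool.Agent.H496.R8
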